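import Pool.Agent.U926.SF.Sums

/-!
# Hypersurfaces `g_0 + ⋯ + g_r = 0`: a version with fewer assumptions on plane curves
-/

set_option autoImplicit false

open CategoryTheory AlgebraicGeometry MvPolynomial

universe u v

namespace Pool.Agent.U926.SF

open Pool.Agent.H914 Pool.Agent.H914.VarClass Pool.Agent.H914.VarClass.Obj Pool.Agent.W492.BB
  Pool.Agent.TH133 Pool.Agent.U926.HC

lemma isNonsingularForm_pow' {k : Type u} [Field k] {d : ℕ} (hd : 2 ≤ d) (hk : (d : k) ≠ 0) :
    IsNonsingularForm d (powForm k d) := by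
  refine ⟨?_, fun x hx => ?_⟩
  · have h1 := (isHomogeneous_X k ()).pow d
    rwa [one_mul] at h1
  · have h1 := hx ()
    rw [powForm, pderiv_pow, pderiv_X_self, mul_one, map_mul, map_natCast, map_pow,
      eval_X] at h1
    have h2 : x () = 0 := by
      rcases mul_eq_zero.1 h1 with h2 | h2
      · exact absurd h2 hk
      · exact pow_eq_zero_iff (by omega) |>.1 h2
    funext i
    exact h2

variable {k : Type u} [Field k] {𝒱 : VarClass k}

/-- The plane curves `g(x) + y ^ d + z ^ d = 0`, for forms `g(x) = c x ^ d` in one variable, are built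
from varieties with the property `G`. -/
def HasFermatCurve' (C : TheoryData.{u, v, 0} 𝒱 ℚ) (T : Hypersurfaces 𝒱) (G : 𝒱.Obj → Prop)
    (d : ℕ) : Prop :=
  ∀ {σ : Type} [Finite σ] (g : MvPolynomial σ k), IsNonsingularForm d g →
    Nat.card σ = 1 → IsBuiltFrom C G (T.V (addPow d (addPow d g)))

section main

variable {C : TheoryData.{u, v, 0} 𝒱 ℚ} [hC : IsChowProj C] {T : Hypersurfaces 𝒱}
  {G : 𝒱.Obj → Prop} {d : ℕ}

include hC

/-- `g(x) + z ^ d + w ^ d`. -/
lemma addPow_addPow' (hd : 2 ≤ d) (hk : (d : k) ≠ 0) (hG : ∀ Y Z, G Y → G Z → G (Y.prod Z))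
    (hT : IsKatsuraShioda C T d) (hF : HasFermatCurve' C T G d) {τ : Type} [Finite τ]
    {g : MvPolynomial τ k} (hg : IsGood C T G d g) (hτ : 1 ≤ Nat.card τ) :
    IsBuiltFrom C G (T.V (addPow d (addPow d g))) := by
  have hp := isNonsingularForm_pow' (k := k) hd hk
  rcases hτ.eq_or_lt with h1 | h1
  · exact hF g hg.form h1.symm
  · let B : MvPolynomial (Unit ⊕ Unit) k := addPow d (powForm k d)
    have hB : IsNonsingularForm d B := hp.sumForm hp
    have e1 : rename ((Equiv.sumCongr (Equiv.refl (τ ⊕ Unit)) (Equiv.refl Unit)).trans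
        (Equiv.sumAssoc τ Unit Unit)) (addPow d (addPow d g)) = sumForm g B :=
      rename_addPow d (Equiv.refl _) (rename_refl' _)
    have hcB : Nat.card (Unit ⊕ Unit) = 2 := by rw [card_sum_unit, Nat.card_unique]
    refine (hT.dominated _ _ _ _ e1 hg.form hB (by omega) (by omega) ?_).trans ?_
    · rw [card_sum_unit, card_sum_unit]
      omega
    · intro Y hY
      cases hY with
      | cones h2 h3 => exact (hg.cone h2).prod (hF _ hp (by rw [Nat.card_unique])) hG
      | join h2 h3 => omega
      | left h2 h3 => exact hg.base h2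
      | right h2 h3 => omega
      | coneLeft h2 h3 => omega
      | coneRight h2 h3 => omega

lemma IsGood.renamed' (hT : IsKatsuraShioda C T d) {ρ σ : Type} [Finite ρ] [Finite σ]
    (e : ρ ≃ σ) {F : MvPolynomial ρ k} {f : MvPolynomial σ k}
    (h : MvPolynomial.rename e F = f)
    (hd : 2 ≤ d) (hk : (d : k) ≠ 0) (hf : IsGood C T G d f) : IsGood C T G d F := by
  have hp := isNonsingularForm_pow' (k := k) hd hk
  have hc : Nat.card ρ = Nat.card σ := Nat.card_congr e
  refine ⟨?_, fun h3 => ?_, fun h2 => ?_⟩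
  · rw [of_rename e h]
    exact hf.form.rename e.symm
  · refine (hT.iso e F f h hf.form (by omega)).trans fun Y hY => ?_
    rw [hY]
    exact hf.base (by omega)
  · refine (hT.iso (Equiv.sumCongr e (Equiv.refl Unit)) (addPow d F) (addPow d f) ?_
      (hf.form.sumForm hp) ?_).trans fun Y hY => ?_
    · rw [← h]
      simp only [addPow, sumForm, map_add, rename_rename, powForm, map_pow, rename_X]
      rfl
    · rw [card_sum_unit]
      omega
    · rw [hY]
      exact hf.cone (by omega)

/-- The sum of two good forms in separate variables is good. -/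
lemma IsGood.add' (hd : 2 ≤ d) (hk : (d : k) ≠ 0) (hG : ∀ Y Z, G Y → G Z → G (Y.prod Z))
    (hT : IsKatsuraShioda C T d) (hF : HasFermatCurve' C T G d) {ρ σ τ : Type} [Finite ρ]
    [Finite σ] [Finite τ] (e : ρ ≃ σ ⊕ τ) {F : MvPolynomial ρ k} {f : MvPolynomial σ k}
    {g : MvPolynomial τ k} (h : rename e F = sumForm f g) (hf : IsGood C T G d f)
    (hg : IsGood C T G d g) (hσ : 1 ≤ Nat.card σ) (hτ : 1 ≤ Nat.card τ) : IsGood C T G d F := by
  have hp := isNonsingularForm_pow' (k := k) hd hk
  have hF' : IsNonsingularForm d F := by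
    rw [of_rename e h]
    exact (hf.form.sumForm hg.form).rename e.symm
  refine ⟨hF', fun h3 => ?_, fun _ => ?_⟩
  · refine (hT.dominated e F f g h hf.form hg.form hσ hτ h3).trans fun Y hY => ?_
    cases hY with
    | cones h2 h3 => exact (hf.cone h2).prod (hg.cone h3) hG
    | join h2 h3 => exact (hf.base h2).prod (hg.base h3) hG
    | left h2 h3 => exact hf.base h2
    | right h2 h3 => exact hg.base h3
    | coneLeft h2 h3 => exact hf.cone h2
    | coneRight h2 h3 => exact hg.cone h3
  · have h5 := addPow_addPow' hd hk hG hT hF hg hτ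
    have hcard : Nat.card ρ = Nat.card σ + Nat.card τ := by rw [Nat.card_congr e, Nat.card_sum]
    have h4 : Nat.card (τ ⊕ Unit) = Nat.card τ + 1 := card_sum_unit
    refine (hT.dominated _ (addPow d F) f (addPow d g) (rename_addPow d e h) hf.form
      (hg.form.sumForm hp) hσ (by omega) ?_).trans fun Y hY => ?_
    · rw [card_sum_unit]
      omega
    cases hY with
    | cones h2 h3 => exact (hf.cone h2).prod h5 hG
    | join h2 h3 => exact (hf.base h2).prod (hg.cone (by omega)) hG
    | left h2 h3 => exact hf.base h2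
    | right h2 h3 => exact hg.cone (by omega)
    | coneLeft h2 h3 => omega
    | coneRight h2 h3 => exact h5

/-- The sum of good forms in separate variables is good. -/
theorem isGood_sumForms' (hd : 2 ≤ d) (hk : (d : k) ≠ 0) (hG : ∀ Y Z, G Y → G Z → G (Y.prod Z))
    (hT : IsKatsuraShioda C T d) (hF : HasFermatCurve' C T G d) :
    ∀ {r : ℕ} {σ : Fin (r + 1) → Type}
    (_ : ∀ l, Finite (σ l)) (_ : ∀ l, Nonempty (σ l)) (g : ∀ l, MvPolynomial (σ l) k)
    (_ : ∀ l, IsGood C T G d (g l)), IsGood C T G d (sumForms g) := by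
  intro r
  induction r with
  | zero =>
    intro σ hfin hne g hg
    have hbij : Function.Bijective (Sigma.mk 0 : σ 0 → Σ l, σ l) := ⟨sigma_mk_injective, by
      rintro ⟨l, x⟩
      obtain rfl : l = 0 := Fin.fin_one_eq_zero l
      exact ⟨x, rfl⟩⟩
    have := hfin
    refine (hg 0).renamed' hT (Equiv.ofBijective _ hbij).symm ?_ hd hk
    rw [sumForms, Fin.sum_univ_one, rename_rename]
    have e1 : ⇑(Equiv.ofBijective _ hbij).symm ∘ Sigma.mk 0 = id := by
      funext x
      exact (Equiv.ofBijective _ hbij).symm_apply_apply x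
    rw [e1, rename_id, AlgHom.id_apply]
  | succ r ih =>
    intro σ hfin hne g hg
    obtain ⟨e, he⟩ := sumForms_succ g
    have := hfin
    refine IsGood.add' hd hk hG hT hF e he (hg _) (ih (fun l => hfin _) (fun l => hne _)
      (fun l => g l.castSucc) fun l => hg _) ?_ ?_
    · have := hne (Fin.last (r + 1))
      exact Nat.card_pos
    · have : Nonempty (Σ l : Fin (r + 1), σ l.castSucc) := ⟨⟨0, (hne _).some⟩⟩
      exact Nat.card_pos

end main

end Pool.Agent.U926.SF
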