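import Pool.Agent.U926.SF.EllDefs
import Pool.Agent.U926.SF.Sums2

/-!
# Hypersurfaces `g_0 + ⋯ + g_r = 0` built from products of elliptic curves
-/

set_option autoImplicit false

open CategoryTheory AlgebraicGeometry MvPolynomial

universe u v

namespace Pool.Agent.U926.SF

open Pool.Agent.H914 Pool.Agent.H914.VarClass Pool.Agent.H914.VarClass.Obj Pool.Agent.W492.BB
  Pool.Agent.TH133 Pool.Agent.U926.HC

variable {k : Type u} [Field k] {𝒱 : VarClass k} {C : TheoryData.{u, v, 0} 𝒱 ℚ}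
  [hC : IsChowProj C] {T : Hypersurfaces 𝒱}

include hC

theorem IsEllipticSum.isBuiltFrom (hT : ∀ d : ℕ, 2 ≤ d → (d : k) ≠ 0 → IsKatsuraShioda C T d)
    (hK : HaveEllipticMotives C T) {X : 𝒱.Obj} (hX : IsEllipticSum C T X) :
    IsBuiltFrom C IsEllipticProduct X := by
  induction hX with
  | @hypersurface d B r σ g hd hk hdB hg =>
    have hp := isNonsingularForm_pow' (k := k) hd hk
    have hF : HasFermatCurve' C T IsEllipticProduct d := by
      intro τ hτ f hf h1
      have h2 : Nat.card (τ ⊕ Unit) = 2 := by rw [card_sum_unit, h1]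
      rcases hdB with ⟨rfl, rfl⟩ | ⟨rfl, rfl⟩ | ⟨h3, h4, rfl⟩
      · refine hK.cubic _ ((hf.sumForm hp).sumForm hp) ?_ ?_ <;>
        · rw [card_sum_unit, card_sum_unit]; omega
      · exact hK.quartic _ (hf.sumForm hp) h2
      · exact hK.fermat d f hd h3 h4 hf h1
    refine (isGood_sumForms' hd hk (fun Y Z hY hZ => .prod Y Z hY hZ) (hT d hd hk) hF hg.finite
      hg.nonempty g fun l => ?_).base hg.three
    have := hg.finite l
    have h1 := hg.le l
    rcases hdB with ⟨rfl, rfl⟩ | ⟨rfl, rfl⟩ | ⟨h3, h4, rfl⟩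
    · refine ⟨hg.form l, fun h3 => hK.cubic _ (hg.form l) h3 (by omega), fun h2 => ?_⟩
      refine hK.cubic _ ((hg.form l).sumForm hp) ?_ ?_ <;> · rw [card_sum_unit]; omega
    · exact ⟨hg.form l, fun h3 => by omega, fun h2 => hK.quartic _ (hg.form l) (by omega)⟩
    · exact ⟨hg.form l, fun h3 => by omega, fun h2 => by omega⟩
  | elliptic X h => exact h
  | prod X Y _ _ hX hY => exact hX.prod hY fun Y Z hY hZ => .prod Y Z hY hZ

end Pool.Agent.U926.SF
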