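import Pool.Agent.U926.SF.RetDefs
import Pool.Agent.U926.SF.Ell
import Mathlib.RingTheory.Finiteness.Basic

/-!
# Groups attached to varieties over finite fields
-/

set_option autoImplicit false

open CategoryTheory AlgebraicGeometry

universe u v

namespace Pool.Agent.U926.SF

open Pool.Agent.H914 Pool.Agent.H914.VarClass Pool.Agent.H914.VarClass.Obj Pool.Agent.W492.BB
  Pool.Agent.W550.Corr Pool.Agent.TH133

/-- Finite sums representing the diagonal. -/
lemma IsBuiltFrom.exists_sum {k : Type u} [Field k] {𝒱 : VarClass k}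
    {C : TheoryData.{u, v, 0} 𝒱 ℚ} {G : 𝒱.Obj → Prop} {X : 𝒱.Obj} (h : IsBuiltFrom C G X) :
    ∃ (n : ℕ) (Y : Fin n → 𝒱.Obj) (r : Fin n → ℤ) (q : Fin n → ℚ)
      (a : ∀ j, C.A (X.prod (Y j))) (b : ∀ j, C.A ((Y j).prod X)), (∀ j, G (Y j)) ∧
      (∀ j, C.Deg ((X.dim : ℤ) - r j) (a j)) ∧ (∀ j, C.Deg (((Y j).dim : ℤ) + r j) (b j)) ∧
      C.graph (𝟙 X) = ∑ j, q j • C.comp (a j) (b j) := by
  unfold IsBuiltFrom at h
  obtain ⟨n, q, g, h1⟩ := Submodule.mem_span_set'.1 h
  choose Y r a b hY ha hb hz using fun j => (g j).2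
  refine ⟨n, Y, r, q, a, b, hY, ha, hb, ?_⟩
  rw [← h1]
  exact Finset.sum_congr rfl fun j _ => by rw [hz]

variable {F : Type u} [Field F] {𝒱 : VarClass (AlgebraicClosure F)} {ι : Type}
  {C : TheoryData.{u, v, 0} 𝒱 ℚ} {W : ModelGroups F 𝒱 ι}

/-- Torsion groups. -/
theorem HasRetracts.torsion (hW : HasRetracts C W) {G : 𝒱.Obj → Prop} {S : ι → Prop}
    (hS : ∀ i r, S i → S (W.shift i r))
    (hG : ∀ Y, G Y → ∀ (m : Model F Y.V) (i : ι), S i → ∀ x : W.G m i, ∃ N : ℕ, 0 < N ∧ N • x = 0)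
    {X : 𝒱.Obj} (hX : IsBuiltFrom C G X) (m : Model F X.V) (i : ι) (hi : S i) (x : W.G m i) :
    ∃ N : ℕ, 0 < N ∧ N • x = 0 := by
  obtain ⟨n, Y, r, q, a, b, hY, ha, hb, h⟩ := hX.exists_sum
  obtain ⟨m', α, β, N, hN, h1⟩ := hW X n Y r q a b ha hb h m i
  choose M hM hM0 using fun j => hG (Y j) (hY j) (m' j) _ (hS i (r j) hi) (α j x)
  refine ⟨(∏ j, M j) * N, Nat.mul_pos (Finset.prod_pos fun j _ => hM j) hN, ?_⟩
  rw [mul_smul, ← h1, Finset.smul_sum]
  refine Finset.sum_eq_zero fun j _ => ?_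
  obtain ⟨c, hc⟩ := Finset.dvd_prod_of_mem M (Finset.mem_univ j)
  rw [← map_nsmul, hc, mul_comm, mul_smul, hM0, smul_zero, map_zero]

/-- A group is finitely generated if its image under multiplication by `N > 0` is contained in the
sum of finitely generated groups, and its `N`-torsion is finite. -/
lemma fg_of_retract {A : Type} [AddCommGroup A] {n : ℕ} {B : Fin n → Type}
    [∀ j, AddCommGroup (B j)] [∀ j, Module.Finite ℤ (B j)] (α : ∀ j, A →+ B j)
    (β : ∀ j, B j →+ A) {N : ℕ} (h : ∀ x, ∑ j, β j (α j x) = N • x)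
    (hN : {x : A | N • x = 0}.Finite) : Module.Finite ℤ A := by
  let g : (∀ j, B j) →ₗ[ℤ] A :=
    ∑ j, (β j).toIntLinearMap ∘ₗ LinearMap.proj j
  let f : A →ₗ[ℤ] A := N • LinearMap.id
  have hf : LinearMap.range f ≤ LinearMap.range g := by
    rintro _ ⟨x, rfl⟩
    refine ⟨fun j => α j x, ?_⟩
    simp only [g, f, LinearMap.sum_apply, LinearMap.comp_apply, LinearMap.proj_apply,
      LinearMap.smul_apply, LinearMap.id_apply]
    exact h x
  have h1 : Module.Finite ℤ (LinearMap.range g) := inferInstance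
  have h2 : Module.Finite ℤ (LinearMap.range f) := by
    have h3 : IsNoetherian ℤ (LinearMap.range g) := isNoetherian_of_isNoetherianRing_of_finite ℤ _
    exact Module.Finite.of_injective (Submodule.inclusion hf) (Submodule.inclusion_injective hf)
  have h4 : Finite (LinearMap.ker f) := by
    have h5 : (LinearMap.ker f : Set A) = {x : A | N • x = 0} := by
      ext x
      simp only [f, SetLike.mem_coe, LinearMap.mem_ker, LinearMap.smul_apply, LinearMap.id_apply,
        Set.mem_setOf_eq]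
    exact Set.Finite.to_subtype (h5 ▸ hN)
  have h6 : Module.Finite ℤ (LinearMap.ker f) := inferInstance
  have h7 : Module.Finite ℤ (A ⧸ LinearMap.ker f) :=
    Module.Finite.equiv f.quotKerEquivRange.symm
  exact Module.Finite.of_submodule_quotient (LinearMap.ker f)

/-- Finitely generated groups. -/
theorem HasRetracts.finite (hW : HasRetracts C W) {G : 𝒱.Obj → Prop}
    (ht : ∀ (X : 𝒱.Obj) (m : Model F X.V) (i : ι) (N : ℕ), 0 < N → {x : W.G m i | N • x = 0}.Finite)
    (hG : ∀ Y, G Y → ∀ (m : Model F Y.V) (i : ι), Module.Finite ℤ (W.G m i))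
    {X : 𝒱.Obj} (hX : IsBuiltFrom C G X) (m : Model F X.V) (i : ι) :
    Module.Finite ℤ (W.G m i) := by
  obtain ⟨n, Y, r, q, a, b, hY, ha, hb, h⟩ := hX.exists_sum
  obtain ⟨m', α, β, N, hN, h1⟩ := hW X n Y r q a b ha hb h m i
  have := fun j => hG (Y j) (hY j) (m' j) (W.shift i (r j))
  exact fg_of_retract α β h1 (ht X m i N hN)

end Pool.Agent.U926.SF
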