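import Pool.Agent.U926.SF.Cur2Defs
import Pool.Agent.U926.SF.Sums2

/-!
# Hypersurfaces `g_0 + ⋯ + g_r = 0` built from products of curves, any characteristic
-/

set_option autoImplicit false

open CategoryTheory AlgebraicGeometry MvPolynomial

universe u v

namespace Pool.Agent.U926.SF

open Pool.Agent.H914 Pool.Agent.H914.VarClass Pool.Agent.H914.VarClass.Obj Pool.Agent.W492.BB
  Pool.Agent.TH133 Pool.Agent.U926.HC

variable {k : Type u} [Field k] {𝒱 : VarClass k} {C : TheoryData.{u, v, 0} 𝒱 ℚ}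
  [hC : IsChowProj C] {T : Hypersurfaces 𝒱}

include hC

lemma isGood_curves' {d : ℕ} (hd : 2 ≤ d) (hk : (d : k) ≠ 0) (hT : IsKatsuraShioda C T d)
    (hK : CubicsHaveCurveMotives C T) {r : ℕ} {σ : Fin (r + 1) → Type}
    (g : ∀ l, MvPolynomial (σ l) k) (hg : HasBlocks d (curveVars d) g) :
    IsGood C T IsCurveProduct d (sumForms g) := by
  have hp := isNonsingularForm_pow' (k := k) hd hk
  have hcurve : ∀ {ρ : Type} [Finite ρ] (F : MvPolynomial ρ k), IsNonsingularForm d F →
      Nat.card ρ = 3 → IsBuiltFrom C IsCurveProduct (T.V F) := by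
    intro ρ _ F hF h3
    refine isBuiltFrom_self (.factor _ ?_)
    have h1 := (hT.emb F hF h3.ge).2
    omega
  have hB : ∀ {ρ : Type} [Finite ρ] (F : MvPolynomial ρ k), IsNonsingularForm d F →
      3 ≤ Nat.card ρ → Nat.card ρ ≤ curveVars d + 1 → IsBuiltFrom C IsCurveProduct (T.V F) := by
    intro ρ _ f hf h3 h4
    rcases h3.eq_or_lt with h5 | h5
    · exact hcurve f hf h5.symm
    · unfold curveVars at h4
      split_ifs at h4 with h6
      · subst h6
        exact hK f hf h5 h4
      · omega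
  have hF : HasFermatCurve' C T IsCurveProduct d := by
    intro τ hτ f hf h1
    refine hcurve _ ((hf.sumForm hp).sumForm hp) ?_
    rw [card_sum_unit, card_sum_unit, h1]
  refine isGood_sumForms' hd hk (fun Y Z hY hZ => .prod Y Z hY hZ) hT hF hg.finite
    hg.nonempty g fun l => ?_
  have := hg.finite l
  have h1 := hg.le l
  refine ⟨hg.form l, fun h3 => hB _ (hg.form l) h3 (by omega), fun h2 => ?_⟩
  refine hB _ ((hg.form l).sumForm hp) ?_ ?_ <;> · rw [card_sum_unit]; omega

theorem IsSumOfCurveType.isBuiltFrom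
    (hT : ∀ d : ℕ, 2 ≤ d → (d : k) ≠ 0 → IsKatsuraShioda C T d)
    (hK : CubicsHaveCurveMotives C T) {X : 𝒱.Obj} (hX : IsSumOfCurveType C T X) :
    IsBuiltFrom C IsCurveProduct X := by
  induction hX with
  | @hypersurface d r σ g hd hk hg => exact (isGood_curves' hd hk (hT d hd hk) hK g hg).base hg.three
  | curves X h => exact h
  | prod X Y _ _ hX hY => exact hX.prod hY fun Y Z hY hZ => .prod Y Z hY hZ

end Pool.Agent.U926.SF
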