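import Pool.Agent.TH133.Defs
import Pool.Agent.U926.HC.FormDefs

/-!
# Varieties built from other varieties, and sums of forms in separate variables: definitions
-/

set_option autoImplicit false

open CategoryTheory AlgebraicGeometry MvPolynomial

universe u v

namespace Pool.Agent.U926.SF

open Pool.Agent.H914 Pool.Agent.H914.VarClass Pool.Agent.H914.VarClass.Obj Pool.Agent.W492.BB
  Pool.Agent.U926.HC

variable {k : Type u} [Field k] {𝒱 : VarClass k}

/-- `X` is built from varieties with the property `G`: the class of the diagonal of `X` is a linear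
combination of compositions `b ∘ a` of correspondences `a` from `X` to `Y`, `b` from `Y` to `X`,
where `Y` is a variety with the property `G`, and `a` lowers the codimensions by some integer `n`
(positive or not) and `b` raises them by `n`. In terms of motives: `h(X)` is a direct summand of a
finite sum of motives `h(Y)(-n)`, `Y` with the property `G`. -/
def IsBuiltFrom (C : TheoryData.{u, v, 0} 𝒱 ℚ) (G : 𝒱.Obj → Prop) (X : 𝒱.Obj) : Prop :=
  C.graph (𝟙 X) ∈ Submodule.span ℚ {z | ∃ (Y : 𝒱.Obj) (n : ℤ) (a : C.A (X.prod Y))
    (b : C.A (Y.prod X)), G Y ∧ C.Deg ((X.dim : ℤ) - n) a ∧ C.Deg ((Y.dim : ℤ) + n) b ∧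
      z = C.comp a b}

/-- A choice of hypersurfaces: `V f` is the hypersurface `f = 0` in the projective space with
coordinates indexed by `σ`, for `f` in the variables `σ`. -/
structure Hypersurfaces (𝒱 : VarClass k) where
  /-- the hypersurface `f = 0` -/
  V : ∀ {σ : Type}, MvPolynomial σ k → 𝒱.Obj

/-- The varieties which enter in the theorem of Katsura and Shioda for the hypersurface
`f(x) + g(y) = 0`: the product of the hypersurfaces `f(x) + z ^ d = 0` and `g(y) + w ^ d = 0`, and
the product of `f(x) = 0` and `g(y) = 0`, which is replaced by `f(x) = 0` if `g` has two variables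
(`g = 0` is a set of `d` points), by `g(y) = 0` if `f` has two variables, and omitted if `f` and `g`
have two variables. If `g` (or `f`) has only one variable, the hypersurface is isomorphic to
`f(x) + z ^ d = 0` (or `g(y) + w ^ d = 0`). -/
inductive IsCentre (T : Hypersurfaces 𝒱) (d : ℕ) {σ τ : Type} (f : MvPolynomial σ k)
    (g : MvPolynomial τ k) : 𝒱.Obj → Prop
  | cones : 2 ≤ Nat.card σ → 2 ≤ Nat.card τ →
      IsCentre T d f g ((T.V (addPow d f)).prod (T.V (addPow d g)))
  | join : 3 ≤ Nat.card σ → 3 ≤ Nat.card τ → IsCentre T d f g ((T.V f).prod (T.V g))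
  | left : 3 ≤ Nat.card σ → Nat.card τ = 2 → IsCentre T d f g (T.V f)
  | right : Nat.card σ = 2 → 3 ≤ Nat.card τ → IsCentre T d f g (T.V g)
  | coneLeft : 2 ≤ Nat.card σ → Nat.card τ = 1 → IsCentre T d f g (T.V (addPow d f))
  | coneRight : Nat.card σ = 1 → 2 ≤ Nat.card τ → IsCentre T d f g (T.V (addPow d g))

/-- The known facts on the nonsingular hypersurfaces of degree `d` which are used:

* `emb`: for a nonsingular form `f` of degree `d` in at least three variables, `V f` is the
  hypersurface `f = 0`;
* `iso`: a bijection of the variables gives an isomorphism of the hypersurfaces;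
* `dominated`: the theorem of Katsura and Shioda. Let `F = f(x) + g(y)` be a nonsingular form of
  degree `d` in at least three variables. The rational map from the product of `f(x) + z ^ d = 0` and
  `g(y) + w ^ d = 0` to `F = 0` which maps `((x : z), (y : w))` to `(w x : ε z y)`, `ε ^ d = -1`, is
  generically finite and becomes a morphism after blowing up the product of `f(x) = 0` and
  `g(y) = 0`. Hence `F = 0` is built from the varieties in `IsCentre`. -/
structure IsKatsuraShioda (C : TheoryData.{u, v, 0} 𝒱 ℚ) (T : Hypersurfaces 𝒱) (d : ℕ) :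
    Prop where
  emb : ∀ {σ : Type} [Finite σ] (f : MvPolynomial σ k), IsNonsingularForm d f →
    3 ≤ Nat.card σ → IsHypersurface (T.V f).V f ∧ (T.V f).dim + 2 = Nat.card σ
  iso : ∀ {ρ σ : Type} [Finite ρ] [Finite σ] (e : ρ ≃ σ) (F : MvPolynomial ρ k)
    (f : MvPolynomial σ k), rename e F = f → IsNonsingularForm d f → 3 ≤ Nat.card σ →
    IsBuiltFrom C (fun Y => Y = T.V f) (T.V F)
  dominated : ∀ {ρ σ τ : Type} [Finite ρ] [Finite σ] [Finite τ] (e : ρ ≃ σ ⊕ τ)
    (F : MvPolynomial ρ k) (f : MvPolynomial σ k) (g : MvPolynomial τ k),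
    rename e F = sumForm f g → IsNonsingularForm d f → IsNonsingularForm d g →
    1 ≤ Nat.card σ → 1 ≤ Nat.card τ → 3 ≤ Nat.card ρ →
    IsBuiltFrom C (IsCentre T d f g) (T.V F)

/-- The conditions on the forms `g_0, …, g_r` in separate sets of variables: they are nonsingular forms
of degree `d` in at least one and at most `B` variables, and the sum `g_0 + ⋯ + g_r` has at least
three variables. -/
structure HasBlocks (d B : ℕ) {r : ℕ} {σ : Fin (r + 1) → Type} (g : ∀ l, MvPolynomial (σ l) k) :
    Prop where
  finite : ∀ l, Finite (σ l)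
  nonempty : ∀ l, Nonempty (σ l)
  form : ∀ l, IsNonsingularForm d (g l)
  le : ∀ l, Nat.card (σ l) ≤ B
  three : 3 ≤ Nat.card (Σ l, σ l)

/-- `X` is an abelian variety (a group scheme). -/
def IsAbelianVariety (X : 𝒱.Obj) : Prop := Nonempty (GrpObj (Over.mk X.V.str))

end Pool.Agent.U926.SF
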