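import Pool.Agent.U926.SF.CurDefs
import Pool.Agent.U926.SF.Sums2

/-!
# Hypersurfaces `g_0 + ⋯ + g_r = 0` built from products of curves
-/

set_option autoImplicit false

open CategoryTheory AlgebraicGeometry MvPolynomial

universe u v

namespace Pool.Agent.U926.SF

open Pool.Agent.H914 Pool.Agent.H914.VarClass Pool.Agent.H914.VarClass.Obj Pool.Agent.W492.BB
  Pool.Agent.TH133 Pool.Agent.U926.HC

variable {k : Type u} [Field k] {𝒱 : VarClass k} [CharZero k] {C : TheoryData.{u, v, 0} 𝒱 ℚ}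
  [hC : IsChowProj C] {T : Hypersurfaces 𝒱}

include hC

lemma isGood_curves {d : ℕ} (hd : 2 ≤ d) (hT : IsKatsuraShioda C T d)
    (hK : CubicsHaveCurveMotives C T) (hK' : CyclicFourfoldsHaveCurveMotives C T) {r : ℕ}
    {σ : Fin (r + 1) → Type} (g : ∀ l, MvPolynomial (σ l) k) (hg : HasBlocks d (blockVars d) g) :
    IsGood C T IsCurveProduct d (sumForms g) := by
  have hk : (d : k) ≠ 0 := Nat.cast_ne_zero.2 (by omega)
  have hp := isNonsingularForm_pow' (k := k) hd hk
  have hcurve : ∀ {ρ : Type} [Finite ρ] (F : MvPolynomial ρ k), IsNonsingularForm d F →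
      Nat.card ρ = 3 → IsBuiltFrom C IsCurveProduct (T.V F) := by
    intro ρ _ F hF h3
    refine isBuiltFrom_self (.factor _ ?_)
    have h1 := (hT.emb F hF h3.ge).2
    omega
  have hB : ∀ {ρ : Type} [Finite ρ] (F : MvPolynomial ρ k), IsNonsingularForm d F →
      3 ≤ Nat.card ρ → (d = 3 ∧ Nat.card ρ ≤ 5) ∨ Nat.card ρ ≤ 3 →
      IsBuiltFrom C IsCurveProduct (T.V F) := by
    intro ρ _ f hf h3 h4
    rcases h3.eq_or_lt with h5 | h5
    · exact hcurve f hf h5.symm
    · rcases h4 with ⟨rfl, h4⟩ | h4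
      · exact hK f hf h5 h4
      · omega
  have hF : HasFermatCurve' C T IsCurveProduct d := by
    intro τ hτ f hf h1
    refine hcurve _ ((hf.sumForm hp).sumForm hp) ?_
    rw [card_sum_unit, card_sum_unit, h1]
  refine isGood_sumForms' hd hk (fun Y Z hY hZ => .prod Y Z hY hZ) hT hF hg.finite
    hg.nonempty g fun l => ?_
  have := hg.finite l
  have h1 := hg.le l
  unfold blockVars at h1
  have h4 : (d = 3 ∧ Nat.card (σ l) ≤ 5) ∨ Nat.card (σ l) ≤ 2 := by
    split_ifs at h1 with h6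
    · exact Or.inl ⟨h6, h1⟩
    · exact Or.inr h1
  refine ⟨hg.form l, fun h3 => hB _ (hg.form l) h3 (by omega), fun h2 => ?_⟩
  rcases eq_or_ne (Nat.card (σ l)) 5 with h5 | h5
  · obtain ⟨rfl, -⟩ := h4.resolve_right (by omega)
    exact hK' _ (hg.form l) h5
  · refine hB _ ((hg.form l).sumForm hp) ?_ ?_ <;> · rw [card_sum_unit]; omega

lemma isBuiltFrom_curves_sumForms {d : ℕ} (hd : 2 ≤ d) (hT : IsKatsuraShioda C T d)
    (hK : CubicsHaveCurveMotives C T) (hK' : CyclicFourfoldsHaveCurveMotives C T) {r : ℕ}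
    {σ : Fin (r + 1) → Type} (g : ∀ l, MvPolynomial (σ l) k) (hg : HasBlocks d (blockVars d) g) :
    IsBuiltFrom C IsCurveProduct (T.V (sumForms g)) :=
  (isGood_curves hd hT hK hK' g hg).base hg.three

theorem IsCurveSum.isBuiltFrom (hT : ∀ d : ℕ, 2 ≤ d → IsKatsuraShioda C T d)
    (hK : CubicsHaveCurveMotives C T) (hK' : CyclicFourfoldsHaveCurveMotives C T) {X : 𝒱.Obj}
    (hX : IsCurveSum C T X) :
    IsBuiltFrom C IsCurveProduct X := by
  induction hX with
  | @hypersurface d r σ g hd hg => exact isBuiltFrom_curves_sumForms hd (hT d hd) hK hK' g hg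
  | curves X h => exact h
  | prod X Y _ _ hX hY => exact hX.prod hY fun Y Z hY hZ => .prod Y Z hY hZ

end Pool.Agent.U926.SF
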