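import Pool.Agent.U926.SF.VoDefs
import Pool.Agent.U926.SF.Cur
import Pool.Agent.U926.HC.Main
import Pool.Agent.TH829.Prime.Num

/-!
# Smash-nilpotence on hypersurfaces `g_0 + ⋯ + g_r = 0`
-/

set_option autoImplicit false

open CategoryTheory AlgebraicGeometry MvPolynomial

universe u v w

namespace Pool.Agent.U926.SF

open Pool.Agent.H914 Pool.Agent.H914.VarClass Pool.Agent.H914.VarClass.Obj Pool.Agent.W492.BB
  Pool.Agent.W550.Corr Pool.Agent.TH133 Pool.Agent.U926.HC Pool.Agent.TH829.Prime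

variable {k : Type u} [Field k] {𝒱 : VarClass k} {C : TheoryData.{u, v, 0} 𝒱 ℚ}
  [hC : IsChowProj C] {X Y : 𝒱.Obj}

section adequate

include hC

lemma act_mem_adequate {I : Family C} (hI : IsAdequate C I) {r i : ℤ} {Γ : C.A (X.prod Y)}
    (hΓ : C.Deg r Γ) {x : C.A X} (hx : x ∈ I X i) : C.act Γ x ∈ I Y (i + r - X.dim) := by
  rw [TheoryData.act_apply]
  have h1 := hI.push_mem (snd X Y) (hI.mul_mem' hΓ (hI.pull_mem (fst X Y) hx))
  refine hI.congr ?_ h1
  rw [dim_prod]
  push_cast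
  ring

/-- Smash-nilpotence of all classes with a property `N`, which is preserved by correspondences, passes
to the varieties which are built from other ones. -/
theorem smash_of_isBuiltFrom {N : ∀ X : 𝒱.Obj, ℤ → C.A X → Prop}
    (hgr : ∀ X i a, N X i a → C.Deg i a)
    (hN : ∀ {X Y : 𝒱.Obj} {r i : ℤ} {Γ : C.A (X.prod Y)} {x : C.A X}, C.Deg r Γ → N X i x →
      N Y (i + r - X.dim) (C.act Γ x)) {G : 𝒱.Obj → Prop}
    (hG : ∀ Y, G Y → ∀ i a, N Y i a → SmashNilpotent C a) (hX : IsBuiltFrom C G X) (i : ℤ)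
    (a : C.A X) (ha : N X i a) : SmashNilpotent C a := by
  rw [smashNilpotent_iff (hgr _ _ _ ha)]
  intro P hP
  have h1 : C.act (C.graph (𝟙 X)) a = a := act_dg C a
  rw [← h1]
  unfold IsBuiltFrom at hX
  refine Submodule.span_induction (p := fun ε _ => C.act ε a ∈ P X i) ?_ ?_ ?_ ?_ hX
  · rintro z ⟨Y, n, u, v, hY, hu, hv, rfl⟩
    rw [C.act_comp]
    have h2 := hN hu ha
    have h3 := (smashNilpotent_iff (hgr _ _ _ h2)).1 (hG Y hY _ _ h2) P hP
    refine hP.toIsAdequate.congr ?_ (act_mem_adequate hP.toIsAdequate hv h3)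
    ring
  · rw [C.act_zero]
    exact Submodule.zero_mem _
  · intro x y _ _ hx hy
    have e1 : C.act (x + y) a = C.act x a + C.act y a := LinearMap.map_add₂ (actB C) x y a
    rw [e1]
    exact Submodule.add_mem _ hx hy
  · intro q x _ hx
    have e1 : C.act (q • x) a = q • C.act x a := LinearMap.map_smul₂ (actB C) q x a
    rw [e1]
    exact Submodule.smul_mem _ _ hx

theorem VoevodskyNum.of_isBuiltFrom (hne : ∀ X : 𝒱.Obj, (1 : C.A X) ≠ 0) {G : 𝒱.Obj → Prop}
    (hG : ∀ Y, G Y → VoevodskyNum C Y) (hX : IsBuiltFrom C G X) : VoevodskyNum C X := by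
  intro i a ha hna
  refine smash_of_isBuiltFrom (N := fun X i a => a ∈ numFam C X i) (fun _ _ _ h => h.1)
    (fun hΓ h => act_mem_adequate (isAdequate_numFam hne) hΓ h)
    (fun Y hY i a h => hG Y hY i a h.1 h.2) hX i a ⟨ha, hna⟩

end adequate

variable {K : Type w} [Field K] {H : WeilTheoryData.{u, v, w} C K} [hH : IsWeilProj H]

include hC hH

lemma one_ne_zero' (X : 𝒱.Obj) : (1 : C.A X) ≠ 0 := by
  intro h
  have h1 : H.cl (1 : C.A X) = 0 := by rw [h, map_zero]
  rw [map_one] at h1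
  exact hH.one_ne_zero X h1

theorem VoevodskyHom.of_isBuiltFrom {G : 𝒱.Obj → Prop}
    (hG : ∀ Y, G Y → VoevodskyHom H Y) (hX : IsBuiltFrom C G X) : VoevodskyHom H X := by
  intro i a ha hna
  refine smash_of_isBuiltFrom (N := fun X i a => C.Deg i a ∧ H.cl a = 0) (fun _ _ _ h => h.1)
    (fun hΓ h => ⟨act_gr hΓ h.1, cl_act_zero h.2⟩)
    (fun Y hY i a h => hG Y hY i a h.1 h.2) hX i a ⟨ha, hna⟩

/-- The degree of a homologically trivial zero-cycle is zero. -/
lemma hasDegree_zero_of_cl {x : C.A X} (hx : C.Deg X.dim x) (h : H.cl x = 0) :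
    HasDegree C x 0 := by
  obtain ⟨q, hq⟩ := exists_hasDegree hx
  have h1 := (hq X).1
  have h2 : H.cl (q • (1 : C.A X)) = 0 := by
    rw [← h1, H.cl_push, H.cl_pull, h, map_zero, map_zero]
  have h3 := eq_zero_of_gr_zero (H := H) (Submodule.smul_mem _ q (C.one_mem X)) h2
  have h4 : q = 0 := (smul_eq_zero.1 h3).resolve_right (one_ne_zero' (H := H) X)
  rwa [h4] at hq

lemma VoevodskyNum.hom (h : VoevodskyNum C X) : VoevodskyHom H X := by
  intro i a ha h0
  refine h i a ha fun b hb => ?_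
  have h2 : C.Deg X.dim (C.mul a b) := by
    have h2 := C.mul_mem ha hb
    rwa [add_sub_cancel] at h2
  have h3 : H.cl (C.mul a b) = 0 := by rw [TheoryData.mul, map_mul, h0, zero_mul]
  exact hasDegree_zero_of_cl h2 h3

/-- The conjecture of Voevodsky for a hypersurface of odd dimension which is built from products of
curves. -/
theorem voevodskyNum_of_odd (hO : OddKimuraTheorem H) {T : HypersurfaceData C} {d : ℕ} (hd : d ≠ 0)
    {ρ : Type} {F : MvPolynomial ρ k} (hE : IsEmbedded T d F) (hL : HasLefschetz H T F)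
    (hodd : Odd (T.V F).dim) (hK : IsBuiltFrom C IsCurveProduct (T.V F)) :
    VoevodskyNum C (T.V F) := by
  intro i a ha hna
  have hh := hE.h_deg
  refine hO _ hK (primProj C d (T.h F)) (primProj_gr hh d)
    (primProj_comp hh hd (hasDegree_top (H := H) hE)) ?_ i a ha ?_
  · intro l b hb
    refine prim_act_zero hd hE hL ?_ hb
    obtain ⟨m, hm⟩ := hodd
    omega
  · have hz : a = 0 → C.act (primProj C d (T.h F)) a = a := by
      rintro rfl
      exact C.act_map_zero _
    rcases lt_or_ge i 0 with hi | hi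
    · refine hz ?_
      have h1 : a ∈ C.gr (T.V F) i := ha
      rw [C.gr_neg _ _ hi] at h1
      exact (Submodule.mem_bot _).1 h1
    · obtain ⟨j, rfl⟩ := Int.eq_ofNat_of_zero_le hi
      rcases le_or_gt j (T.V F).dim with hj | hj
      · rw [act_primProj hh d hj ha (q := 0), mul_zero, zero_smul, sub_zero]
        have h1 : C.Deg (((T.V F).dim : ℤ) - j) (T.h F ^ ((T.V F).dim - j)) := by
          have h2 := pow_gr hh ((T.V F).dim - j)
          rwa [Nat.cast_sub hj] at h2
        have h2 := hna _ h1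
        rwa [TheoryData.mul, ch_comm C] at h2
      · exact hz (hC.gr_top _ _ _ ha (by exact_mod_cast hj))

theorem IsOddSum.voevodskyNum [CharZero k] {T : HypersurfaceData C}
    (hT : ∀ d : ℕ, 2 ≤ d → IsKatsuraShioda C (hyp T) d)
    (hP : ∀ d : ℕ, 2 ≤ d → IsProjectiveTheory H T d) (hK : CubicsHaveCurveMotives C (hyp T))
    (hK' : CyclicFourfoldsHaveCurveMotives C (hyp T)) (hO : OddKimuraTheorem H)
    (hX : IsOddSum T X) :
    VoevodskyNum C X := by
  obtain ⟨d, g, hd, hg, hodd⟩ := hX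
  have h1 := isBuiltFrom_curves_sumForms hd (hT d hd) hK hK' g hg
  have := hg.finite
  have hf := (isGood_curves hd (hT d hd) hK hK' g hg).form
  have hE := (hP d hd).emb (sumForms g) hf hg.three
  refine voevodskyNum_of_odd hO (by omega) hE ((hP d hd).lefschetz _ hf hg.three) ?_ h1
  have h2 := hE.dim
  rw [← h2] at hodd
  obtain ⟨m, hm⟩ := hodd
  exact ⟨m - 1, by omega⟩

end Pool.Agent.U926.SF
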