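import Pool.Agent.U926.SF.Dom
import Pool.Agent.U926.HC.Forms

/-!
# Hypersurfaces `g_0 + ⋯ + g_r = 0` are built from the hypersurfaces `g_l = 0`, `g_l + z ^ d = 0`
-/

set_option autoImplicit false

open CategoryTheory AlgebraicGeometry MvPolynomial

universe u v

namespace Pool.Agent.U926.SF

open Pool.Agent.H914 Pool.Agent.H914.VarClass Pool.Agent.H914.VarClass.Obj Pool.Agent.W492.BB
  Pool.Agent.TH133 Pool.Agent.U926.HC

section forms

variable {k : Type u} [Field k]

/-- `F` is a sum of forms in one variable each. -/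
inductive IsDiagonal (d : ℕ) : ∀ {ρ : Type}, MvPolynomial ρ k → Prop
  | one {ρ : Type} (F : MvPolynomial ρ k) : Nat.card ρ = 1 → IsDiagonal d F
  | add {ρ σ τ : Type} (e : ρ ≃ σ ⊕ τ) (F : MvPolynomial ρ k) (f : MvPolynomial σ k)
      (g : MvPolynomial τ k) : rename e F = sumForm f g → IsDiagonal d f → IsDiagonal d g →
      IsDiagonal d F

lemma IsDiagonal.pow (d : ℕ) : IsDiagonal d (powForm k d) :=
  .one _ (by simp)

lemma rename_refl' {ρ : Type} (F : MvPolynomial ρ k) : rename (Equiv.refl ρ) F = F := by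
  rw [Equiv.coe_refl, rename_id, AlgHom.id_apply]

lemma IsDiagonal.sum {d : ℕ} {σ τ : Type} {f : MvPolynomial σ k} {g : MvPolynomial τ k}
    (hf : IsDiagonal d f) (hg : IsDiagonal d g) : IsDiagonal d (sumForm f g) :=
  .add (Equiv.refl _) _ f g (rename_refl' _) hf hg

lemma card_sum_unit {τ : Type} [Finite τ] : Nat.card (τ ⊕ Unit) = Nat.card τ + 1 := by
  rw [Nat.card_sum, Nat.card_unique (α := Unit)]

/-- `(f + g) + z ^ d = f + (g + z ^ d)`. -/
lemma rename_addPow (d : ℕ) {ρ σ τ : Type} (e : ρ ≃ σ ⊕ τ) {F : MvPolynomial ρ k}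
    {f : MvPolynomial σ k} {g : MvPolynomial τ k} (h : rename e F = sumForm f g) :
    rename ((Equiv.sumCongr e (Equiv.refl Unit)).trans (Equiv.sumAssoc σ τ Unit)) (addPow d F) =
      sumForm f (addPow d g) := by
  rw [of_rename e h]
  simp only [addPow, sumForm, map_add, rename_rename, powForm, map_pow, rename_X]
  rw [add_assoc]
  have e1 : (⇑((Equiv.sumCongr e (Equiv.refl Unit)).trans (Equiv.sumAssoc σ τ Unit)) ∘
      Sum.inl ∘ ⇑e.symm ∘ Sum.inl) = Sum.inl := by
    funext i
    simp
  have e2 : (⇑((Equiv.sumCongr e (Equiv.refl Unit)).trans (Equiv.sumAssoc σ τ Unit)) ∘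
      Sum.inl ∘ ⇑e.symm ∘ Sum.inr) = Sum.inr ∘ Sum.inl := by
    funext i
    simp
  rw [e1, e2]
  rfl

/-- `g_0 + ⋯ + g_(r+1) = g_(r+1) + (g_0 + ⋯ + g_r)`. -/
lemma sumForms_succ {r : ℕ} {σ : Fin (r + 2) → Type} (g : ∀ l, MvPolynomial (σ l) k) :
    ∃ e : (Σ l, σ l) ≃ σ (Fin.last (r + 1)) ⊕ (Σ l : Fin (r + 1), σ l.castSucc),
      rename e (sumForms g) = sumForm (g (Fin.last (r + 1)))
        (sumForms fun l : Fin (r + 1) => g l.castSucc) := by
  let φ : σ (Fin.last (r + 1)) ⊕ (Σ l : Fin (r + 1), σ l.castSucc) → Σ l, σ l :=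
    Sum.elim (Sigma.mk (Fin.last (r + 1))) fun x => ⟨x.1.castSucc, x.2⟩
  have hφ : Function.Bijective φ := by
    constructor
    · rintro (x | ⟨l, x⟩) (y | ⟨m, y⟩) h
      · exact congrArg Sum.inl (sigma_mk_injective h)
      · have h3 := congrArg (fun z : Σ l, σ l => z.1) h
        exact absurd h3.symm (Fin.castSucc_ne_last m)
      · have h3 := congrArg (fun z : Σ l, σ l => z.1) h
        exact absurd h3 (Fin.castSucc_ne_last l)
      · have h3 : l.castSucc = m.castSucc := congrArg (fun z : Σ l, σ l => z.1) h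
        obtain rfl := Fin.castSucc_injective _ h3
        have h4 : x = y := sigma_mk_injective h
        rw [h4]
    · rintro ⟨l, x⟩
      induction l using Fin.lastCases with
      | last => exact ⟨Sum.inl x, rfl⟩
      | cast l => exact ⟨Sum.inr ⟨l, x⟩, rfl⟩
  have hF : sumForms g = rename φ (sumForm (g (Fin.last (r + 1)))
      (sumForms fun l : Fin (r + 1) => g l.castSucc)) := by
    have e1 : rename φ (rename Sum.inl (g (Fin.last (r + 1)))) =
        rename (Sigma.mk (Fin.last (r + 1))) (g (Fin.last (r + 1))) := by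
      rw [rename_rename]
      rfl
    have e2 : rename φ (rename Sum.inr (sumForms fun l : Fin (r + 1) => g l.castSucc)) =
        ∑ l : Fin (r + 1), rename (Sigma.mk l.castSucc) (g l.castSucc) := by
      rw [sumForms, map_sum, map_sum]
      refine Finset.sum_congr rfl fun l _ => ?_
      rw [rename_rename, rename_rename]
      rfl
    have e3 : sumForms g = ∑ l : Fin (r + 1), rename (Sigma.mk l.castSucc) (g l.castSucc) +
        rename (Sigma.mk (Fin.last (r + 1))) (g (Fin.last (r + 1))) := by
      rw [sumForms, Fin.sum_univ_castSucc]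
    rw [e3, sumForm, map_add, e1, e2]
    exact _root_.add_comm _ _
  refine ⟨(Equiv.ofBijective φ hφ).symm, ?_⟩
  rw [hF, rename_rename]
  have e1 : ⇑(Equiv.ofBijective φ hφ).symm ∘ φ = id := by
    funext x
    exact (Equiv.ofBijective φ hφ).symm_apply_apply x
  rw [e1, rename_id, AlgHom.id_apply]

end forms

variable {k : Type u} [Field k] {𝒱 : VarClass k}

/-- The form `g` of degree `d` is good: it is nonsingular, and the hypersurfaces `g = 0` (if it has at
least three variables) and `g(x) + z ^ d = 0` (if it has at least two variables) are built from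
varieties with the property `G`. -/
structure IsGood (C : TheoryData.{u, v, 0} 𝒱 ℚ) (T : Hypersurfaces 𝒱) (G : 𝒱.Obj → Prop) (d : ℕ)
    {σ : Type} (g : MvPolynomial σ k) : Prop where
  form : IsNonsingularForm d g
  base : 3 ≤ Nat.card σ → IsBuiltFrom C G (T.V g)
  cone : 2 ≤ Nat.card σ → IsBuiltFrom C G (T.V (addPow d g))

/-- The plane curves `a x ^ d + b y ^ d + c z ^ d = 0` are built from varieties with the property
`G`. -/
def HasFermatCurve (C : TheoryData.{u, v, 0} 𝒱 ℚ) (T : Hypersurfaces 𝒱) (G : 𝒱.Obj → Prop)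
    (d : ℕ) : Prop :=
  ∀ {ρ : Type} [Finite ρ] (F : MvPolynomial ρ k), IsDiagonal d F → IsNonsingularForm d F →
    Nat.card ρ = 3 → IsBuiltFrom C G (T.V F)

section main

variable [CharZero k] {C : TheoryData.{u, v, 0} 𝒱 ℚ} [hC : IsChowProj C] {T : Hypersurfaces 𝒱}
  {G : 𝒱.Obj → Prop} {d : ℕ}

include hC

lemma isGood_one {σ : Type} {g : MvPolynomial σ k} (hg : IsNonsingularForm d g)
    (h : Nat.card σ = 1) : IsGood C T G d g :=
  ⟨hg, fun h3 => by omega, fun h2 => by omega⟩

/-- `g(x) + z ^ d + w ^ d`. -/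
lemma addPow_addPow (hd : 2 ≤ d) (hG : ∀ Y Z, G Y → G Z → G (Y.prod Z))
    (hT : IsKatsuraShioda C T d) (hF : HasFermatCurve C T G d) {τ : Type} [Finite τ]
    {g : MvPolynomial τ k} (hg : IsGood C T G d g) (hτ : 1 ≤ Nat.card τ) :
    IsBuiltFrom C G (T.V (addPow d (addPow d g))) := by
  have hp := isNonsingularForm_pow (k := k) hd
  rcases hτ.eq_or_lt with h1 | h1
  · refine hF _ ?_ ((hg.form.sumForm hp).sumForm hp) ?_
    · exact ((IsDiagonal.one g h1.symm).sum (.pow d)).sum (.pow d)
    · rw [card_sum_unit, card_sum_unit, ← h1]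
  · let B : MvPolynomial (Unit ⊕ Unit) k := addPow d (powForm k d)
    have hB : IsNonsingularForm d B := hp.sumForm hp
    have e1 : rename ((Equiv.sumCongr (Equiv.refl (τ ⊕ Unit)) (Equiv.refl Unit)).trans
        (Equiv.sumAssoc τ Unit Unit)) (addPow d (addPow d g)) = sumForm g B :=
      rename_addPow d (Equiv.refl _) (rename_refl' _)
    have hcB : Nat.card (Unit ⊕ Unit) = 2 := by rw [card_sum_unit, Nat.card_unique]
    refine (hT.dominated _ _ _ _ e1 hg.form hB (by omega) (by omega) ?_).trans ?_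
    · rw [card_sum_unit, card_sum_unit]
      omega
    · intro Y hY
      cases hY with
      | cones h2 h3 =>
        refine (hg.cone h2).prod (hF _ ?_ (hB.sumForm hp) ?_) hG
        · exact ((IsDiagonal.pow d).sum (.pow d)).sum (.pow d)
        · rw [card_sum_unit, hcB]
      | join h2 h3 => omega
      | left h2 h3 => exact hg.base h2
      | right h2 h3 => omega
      | coneLeft h2 h3 => omega
      | coneRight h2 h3 => omega

lemma IsGood.renamed (hT : IsKatsuraShioda C T d) {ρ σ : Type} [Finite ρ] [Finite σ]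
    (e : ρ ≃ σ) {F : MvPolynomial ρ k} {f : MvPolynomial σ k}
    (h : MvPolynomial.rename e F = f)
    (hd : 2 ≤ d) (hf : IsGood C T G d f) : IsGood C T G d F := by
  have hp := isNonsingularForm_pow (k := k) hd
  have hc : Nat.card ρ = Nat.card σ := Nat.card_congr e
  refine ⟨?_, fun h3 => ?_, fun h2 => ?_⟩
  · rw [of_rename e h]
    exact hf.form.rename e.symm
  · refine (hT.iso e F f h hf.form (by omega)).trans fun Y hY => ?_
    rw [hY]
    exact hf.base (by omega)
  · refine (hT.iso (Equiv.sumCongr e (Equiv.refl Unit)) (addPow d F) (addPow d f) ?_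
      (hf.form.sumForm hp) ?_).trans fun Y hY => ?_
    · rw [← h]
      simp only [addPow, sumForm, map_add, rename_rename, powForm, map_pow, rename_X]
      rfl
    · rw [card_sum_unit]
      omega
    · rw [hY]
      exact hf.cone (by omega)

/-- The sum of two good forms in separate variables is good. -/
lemma IsGood.add (hd : 2 ≤ d) (hG : ∀ Y Z, G Y → G Z → G (Y.prod Z))
    (hT : IsKatsuraShioda C T d) (hF : HasFermatCurve C T G d) {ρ σ τ : Type} [Finite ρ]
    [Finite σ] [Finite τ] (e : ρ ≃ σ ⊕ τ) {F : MvPolynomial ρ k} {f : MvPolynomial σ k}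
    {g : MvPolynomial τ k} (h : rename e F = sumForm f g) (hf : IsGood C T G d f)
    (hg : IsGood C T G d g) (hσ : 1 ≤ Nat.card σ) (hτ : 1 ≤ Nat.card τ) : IsGood C T G d F := by
  have hp := isNonsingularForm_pow (k := k) hd
  have hF' : IsNonsingularForm d F := by
    rw [of_rename e h]
    exact (hf.form.sumForm hg.form).rename e.symm
  refine ⟨hF', fun h3 => ?_, fun _ => ?_⟩
  · refine (hT.dominated e F f g h hf.form hg.form hσ hτ h3).trans fun Y hY => ?_
    cases hY with
    | cones h2 h3 => exact (hf.cone h2).prod (hg.cone h3) hG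
    | join h2 h3 => exact (hf.base h2).prod (hg.base h3) hG
    | left h2 h3 => exact hf.base h2
    | right h2 h3 => exact hg.base h3
    | coneLeft h2 h3 => exact hf.cone h2
    | coneRight h2 h3 => exact hg.cone h3
  · have h5 := addPow_addPow hd hG hT hF hg hτ
    have hcard : Nat.card ρ = Nat.card σ + Nat.card τ := by rw [Nat.card_congr e, Nat.card_sum]
    have h4 : Nat.card (τ ⊕ Unit) = Nat.card τ + 1 := card_sum_unit
    refine (hT.dominated _ (addPow d F) f (addPow d g) (rename_addPow d e h) hf.form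
      (hg.form.sumForm hp) hσ (by omega) ?_).trans fun Y hY => ?_
    · rw [card_sum_unit]
      omega
    cases hY with
    | cones h2 h3 => exact (hf.cone h2).prod h5 hG
    | join h2 h3 => exact (hf.base h2).prod (hg.cone (by omega)) hG
    | left h2 h3 => exact hf.base h2
    | right h2 h3 => exact hg.cone (by omega)
    | coneLeft h2 h3 => omega
    | coneRight h2 h3 => exact h5

/-- The sum of good forms in separate variables is good. -/
theorem isGood_sumForms (hd : 2 ≤ d) (hG : ∀ Y Z, G Y → G Z → G (Y.prod Z))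
    (hT : IsKatsuraShioda C T d) (hF : HasFermatCurve C T G d) : ∀ {r : ℕ} {σ : Fin (r + 1) → Type}
    (_ : ∀ l, Finite (σ l)) (_ : ∀ l, Nonempty (σ l)) (g : ∀ l, MvPolynomial (σ l) k)
    (_ : ∀ l, IsGood C T G d (g l)), IsGood C T G d (sumForms g) := by
  intro r
  induction r with
  | zero =>
    intro σ hfin hne g hg
    have hbij : Function.Bijective (Sigma.mk 0 : σ 0 → Σ l, σ l) := ⟨sigma_mk_injective, by
      rintro ⟨l, x⟩
      obtain rfl : l = 0 := Fin.fin_one_eq_zero l
      exact ⟨x, rfl⟩⟩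
    have := hfin
    refine (hg 0).renamed hT (Equiv.ofBijective _ hbij).symm ?_ hd
    rw [sumForms, Fin.sum_univ_one, rename_rename]
    have e1 : ⇑(Equiv.ofBijective _ hbij).symm ∘ Sigma.mk 0 = id := by
      funext x
      exact (Equiv.ofBijective _ hbij).symm_apply_apply x
    rw [e1, rename_id, AlgHom.id_apply]
  | succ r ih =>
    intro σ hfin hne g hg
    obtain ⟨e, he⟩ := sumForms_succ g
    have := hfin
    refine IsGood.add hd hG hT hF e he (hg _) (ih (fun l => hfin _) (fun l => hne _)
      (fun l => g l.castSucc) fun l => hg _) ?_ ?_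
    · have := hne (Fin.last (r + 1))
      exact Nat.card_pos
    · have : Nonempty (Σ l : Fin (r + 1), σ l.castSucc) := ⟨⟨0, (hne _).some⟩⟩
      exact Nat.card_pos

end main

end Pool.Agent.U926.SF
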