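import Pool.Agent.U926.SF.Sums

/-!
# Sums of forms in few variables
-/

set_option autoImplicit false

open CategoryTheory AlgebraicGeometry MvPolynomial MonoidalCategory

universe u v

namespace Pool.Agent.U926.SF

open Pool.Agent.H914 Pool.Agent.H914.VarClass Pool.Agent.H914.VarClass.Obj Pool.Agent.W492.BB
  Pool.Agent.TH133 Pool.Agent.U926.HC

variable {k : Type u} [Field k] {𝒱 : VarClass k}

section main

variable [CharZero k] {C : TheoryData.{u, v, 0} 𝒱 ℚ} [hC : IsChowProj C] {T : Hypersurfaces 𝒱}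
  {G : 𝒱.Obj → Prop} {d : ℕ}

lemma IsAbelianVariety.prod {X Y : 𝒱.Obj} (hX : IsAbelianVariety X) (hY : IsAbelianVariety Y) :
    IsAbelianVariety (X.prod Y) := by
  obtain ⟨hX⟩ := hX
  obtain ⟨hY⟩ := hY
  exact ⟨(inferInstance : GrpObj ((Over.mk X.V.str) ⊗ (Over.mk Y.V.str)))⟩

include hC

/-- If the hypersurfaces of degree `d` in at most `B + 1` variables (and the Fermat curve) are built
from varieties with the property `G`, then so are the hypersurfaces `g_0 + ⋯ + g_r = 0` for forms
`g_l` in at most `B` variables. -/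
theorem isBuiltFrom_sumForms (hd : 2 ≤ d) {B : ℕ} (hG : ∀ Y Z, G Y → G Z → G (Y.prod Z))
    (hT : IsKatsuraShioda C T d) (hF : HasFermatCurve C T G d)
    (hB : ∀ {σ : Type} [Finite σ] (f : MvPolynomial σ k), IsNonsingularForm d f →
      3 ≤ Nat.card σ → Nat.card σ ≤ B + 1 → IsBuiltFrom C G (T.V f))
    {r : ℕ} {σ : Fin (r + 1) → Type} (g : ∀ l, MvPolynomial (σ l) k) (hg : HasBlocks d B g) :
    IsBuiltFrom C G (T.V (sumForms g)) := by
  have hp := isNonsingularForm_pow (k := k) hd
  refine (isGood_sumForms hd hG hT hF hg.finite hg.nonempty g fun l => ?_).base hg.three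
  have := hg.finite
  have h1 := hg.le l
  refine ⟨hg.form l, fun h3 => hB _ (hg.form l) h3 (by omega), fun h2 => ?_⟩
  refine hB _ ((hg.form l).sumForm hp) ?_ ?_ <;> · rw [card_sum_unit]; omega

end main

end Pool.Agent.U926.SF
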