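import Pool.Agent.U926.SF.AbDefs
import Pool.Agent.U926.SF.Blocks

/-!
# Products of hypersurfaces `g_0 + ⋯ + g_r = 0` with motives of abelian type
-/

set_option autoImplicit false

open CategoryTheory AlgebraicGeometry MvPolynomial

universe u v

namespace Pool.Agent.U926.SF

open Pool.Agent.H914 Pool.Agent.H914.VarClass Pool.Agent.H914.VarClass.Obj Pool.Agent.W492.BB
  Pool.Agent.TH133 Pool.Agent.U926.HC

variable {k : Type u} [Field k] {𝒱 : VarClass k} [CharZero k] {C : TheoryData.{u, v, 0} 𝒱 ℚ}
  [hC : IsChowProj C] {T : Hypersurfaces 𝒱}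

include hC

theorem IsSumProduct.isBuiltFrom (hT : ∀ d : ℕ, 2 ≤ d → IsKatsuraShioda C T d)
    (hK : KnownTypesAreAbelian C T) {X : 𝒱.Obj} (hX : IsSumProduct C T X) :
    IsBuiltFrom C IsAbelianVariety X := by
  induction hX with
  | @hypersurface d r σ g hd hg =>
    refine isBuiltFrom_sumForms hd (fun _ _ => IsAbelianVariety.prod) (hT d hd) ?_ ?_ g hg
    · intro ρ _ F _ hF h3
      exact hK d F hd hF h3.ge (Or.inl h3)
    · intro σ _ f hf h3 h4
      refine hK d f hd hf h3 ?_
      unfold maxVars at h4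
      unfold IsKnownType
      split_ifs at h4 with h5 h6
      · exact Or.inr (Or.inl ⟨h5, by omega⟩)
      · exact Or.inr (Or.inr ⟨h6, by omega⟩)
      · exact Or.inl (by omega)
  | abelian X h => exact h
  | prod X Y _ _ hX hY => exact hX.prod hY fun _ _ => IsAbelianVariety.prod

end Pool.Agent.U926.SF
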