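import Pool.Agent.U926.SF.Defs

/-!
# Products of hypersurfaces `g_0 + ⋯ + g_r = 0` with motives of abelian type: definitions
-/

set_option autoImplicit false

open CategoryTheory AlgebraicGeometry MvPolynomial

universe u v

namespace Pool.Agent.U926.SF

open Pool.Agent.H914 Pool.Agent.H914.VarClass Pool.Agent.H914.VarClass.Obj Pool.Agent.W492.BB
  Pool.Agent.TH133 Pool.Agent.U926.HC

variable {k : Type u} [Field k] {𝒱 : VarClass k}

/-- The degrees `d` and the numbers `n` of variables for which the motives of the nonsingular
hypersurfaces (in the projective space of dimension `n - 1`) are known to be of abelian type: plane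
curves, cubic hypersurfaces of dimension at most five, quartic hypersurfaces of dimension at most
three. -/
def IsKnownType (d n : ℕ) : Prop := n = 3 ∨ (d = 3 ∧ n ≤ 7) ∨ (d = 4 ∧ n ≤ 5)

/-- The hypersurfaces of known type are built from abelian varieties, by correspondences in the
theory `C`. -/
def KnownTypesAreAbelian (C : TheoryData.{u, v, 0} 𝒱 ℚ) (T : Hypersurfaces 𝒱) : Prop :=
  ∀ (d : ℕ) {σ : Type} [Finite σ] (f : MvPolynomial σ k), 2 ≤ d → IsNonsingularForm d f →
    3 ≤ Nat.card σ → IsKnownType d (Nat.card σ) → IsBuiltFrom C IsAbelianVariety (T.V f)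

/-- The bound for the number of the variables of the forms `g_l` of degree `d`: six for cubic forms,
four for quartic forms, and two for forms of other degrees. -/
def maxVars (d : ℕ) : ℕ := if d = 3 then 6 else if d = 4 then 4 else 2

/-- The varieties of the theorem:

* the hypersurfaces `g_0(x^(0)) + ⋯ + g_r(x^(r)) = 0`, where the `g_l` are nonsingular forms of degree
  `d` in separate sets of variables, each of at most `maxVars d` variables; any `r` and `d ≥ 2`;
* all varieties which are built from abelian varieties by correspondences in the theory `C` (abelian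
  varieties, curves, K3 surfaces, …);
* all products of such varieties. -/
inductive IsSumProduct (C : TheoryData.{u, v, 0} 𝒱 ℚ) (T : Hypersurfaces 𝒱) : 𝒱.Obj → Prop
  | hypersurface (d : ℕ) {r : ℕ} {σ : Fin (r + 1) → Type} (g : ∀ l, MvPolynomial (σ l) k) :
      2 ≤ d → HasBlocks d (maxVars d) g → IsSumProduct C T (T.V (sumForms g))
  | abelian (X : 𝒱.Obj) : IsBuiltFrom C IsAbelianVariety X → IsSumProduct C T X
  | prod (X Y : 𝒱.Obj) : IsSumProduct C T X → IsSumProduct C T Y → IsSumProduct C T (X.prod Y)

end Pool.Agent.U926.SF
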