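import Mathlib

/-!
# Semisimple representations: definition
-/

set_option autoImplicit false

namespace Pool.Agent.U926.SF

variable {K V Γ : Type*} [Field K] [AddCommGroup V] [Module K V] [Group Γ]

/-- The subspace `W` of `V` is stable under the operators `ρ g`, `g ∈ S`. -/
def IsStable (S : Subgroup Γ) (ρ : Γ → V → V) (W : Submodule K V) : Prop :=
  ∀ g ∈ S, ∀ x ∈ W, ρ g x ∈ W

/-- The subspace `E` of `V` is semisimple for the operators `ρ g`, `g ∈ S`: every stable subspace of
`E` has a stable complement in `E`. -/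
def IsSemisimpleOn (S : Subgroup Γ) (ρ : Γ → V → V) (E : Submodule K V) : Prop :=
  ∀ W ≤ E, IsStable S ρ W → ∃ W' ≤ E, IsStable S ρ W' ∧ W ⊓ W' = ⊥ ∧ W ⊔ W' = E

end Pool.Agent.U926.SF
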