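import Pool.Agent.U926.SF.AbDefs
import Pool.Agent.U926.SF.SemiDefs

/-!
# Galois representations on the cohomology of varieties over number fields: definitions
-/

set_option autoImplicit false

open CategoryTheory AlgebraicGeometry

universe u v

namespace Pool.Agent.U926.SF

open Pool.Agent.H914 Pool.Agent.H914.VarClass Pool.Agent.H914.VarClass.Obj Pool.Agent.W492.BB
  Pool.Agent.TH133

/-- The extensions of `F` in the algebraic closure. -/
abbrev Ext (F : Type u) [Field F] : Type u := IntermediateField F (AlgebraicClosure F)

/-- The Galois group of `F`. -/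
def GalF (F : Type u) [Field F] : Type u := Gal(AlgebraicClosure F/F)

noncomputable instance (F : Type u) [Field F] : Group (GalF F) :=
  inferInstanceAs (Group Gal(AlgebraicClosure F/F))

/-- The Galois group of the extension `L` of `F`. -/
noncomputable def gal {F : Type u} [Field F] (L : Ext F) : Subgroup (GalF F) := L.fixingSubgroup

/-- The extension `L` of `F` is finite. -/
def IsFinite {F : Type u} [Field F] (L : Ext F) : Prop := FiniteDimensional F L

/-- The morphism `f` identifies `X` with the base change of the variety `V` over `L` to the algebraic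
closure. -/
def IsBaseChange {F : Type u} [Field F] {L : Ext F} {X : SmVar (AlgebraicClosure F)} {V : SmVar L}
    (f : X.X ⟶ V.X) : Prop :=
  IsPullback f X.str V.str (Spec.map (CommRingCat.ofHom (algebraMap L (AlgebraicClosure F))))

/-- A model of the variety `X` over the algebraic closure of `F`: a smooth proper variety `V` over a
finite extension `L` of `F` in the algebraic closure, and an isomorphism of `X` with the base
change of `V`. -/
structure Model (F : Type u) [Field F] (X : SmVar (AlgebraicClosure F)) where
  /-- the field of definition -/
  L : Ext F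
  finite : IsFinite L
  /-- the variety over `L` -/
  V : SmVar L
  /-- the projection of the base change -/
  f : X.X ⟶ V.X
  isBaseChange : IsBaseChange f

variable {F : Type u} [Field F] {𝒱 : VarClass (AlgebraicClosure F)}
  {C : TheoryData.{u, v, 0} 𝒱 ℚ} {p : ℕ} [Fact p.Prime]

variable (F) in
/-- The actions of the Galois group of `F` on the `p`-adic cohomology of the models: for a model `m`
over `L` of `X` the action of the elements of the Galois group of `L` on the cohomology `H(X)`,
and the cyclotomic character. -/
structure GaloisActions (H : WeilTheoryData.{u, v, 0} C ℚ_[p]) where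
  /-- the action for the model `m`; only the values on the Galois group of `m.L` are used -/
  act : ∀ {X : 𝒱.Obj}, Model F X.V → GalF F → H.A X → H.A X
  /-- the cyclotomic character -/
  chi : GalF F → ℚ_[p]ˣ

variable {H : WeilTheoryData.{u, v, 0} C ℚ_[p]}

/-- The class `χ(g)^(-r) a`, `χ` the cyclotomic character. -/
noncomputable def GaloisActions.twist (A : GaloisActions F H) {X : 𝒱.Obj} (r : ℤ) (g : GalF F)
    (a : H.A X) : H.A X := ((A.chi g ^ (-r) : ℚ_[p]ˣ) : ℚ_[p]) • a

/-- The class `z_* a`. -/
noncomputable def star (H : WeilTheoryData.{u, v, 0} C ℚ_[p]) {X Y : 𝒱.Obj} (z : C.A (X.prod Y))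
    (a : H.A X) : H.A Y := H.act (H.cl z) a

/-- For the models `m` of `X` and `m'` of `Y` the map `z_* : H^i(X) → H^(i + 2 r)(Y)(r)` given by the
correspondence `z` of degree `r` is equivariant for the Galois group of `L`. -/
def IsEquivariant (A : GaloisActions F H) {X Y : 𝒱.Obj} (m : Model F X.V) (m' : Model F Y.V)
    (r : ℤ) (z : C.A (X.prod Y)) (L : Ext F) : Prop :=
  ∀ g ∈ gal L, ∀ a : H.A X, A.act m' g (star H z a) = A.twist r g (star H z (A.act m g a))

/-- The Galois group of the field of definition acts linearly on the groups `H^i(X)`. -/
structure IsAction (A : GaloisActions F H) {X : 𝒱.Obj} (m : Model F X.V) : Prop where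
  linear : ∀ g, IsLinearMap ℚ_[p] (A.act m g)
  one : ∀ a : H.A X, A.act m 1 a = a
  mul : ∀ g ∈ gal m.L, ∀ h ∈ gal m.L, ∀ a : H.A X, A.act m (g * h) a = A.act m g (A.act m h a)
  deg : ∀ g ∈ gal m.L, ∀ {i : ℤ} {a : H.A X}, H.Deg i a → H.Deg i (A.act m g a)

/-- The formal properties of the actions of the Galois groups on the `p`-adic cohomology: every
variety has a model; for a model over `L` the Galois group of `L` acts on the groups `H^i(X)`; and
the maps given by the correspondences of the theory `C` are equivariant for the Galois group of some
finite extension. -/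
structure GaloisActions.IsGaloisTheory (A : GaloisActions F H) : Prop where
  exists_model : ∀ X : 𝒱.Obj, Nonempty (Model F X.V)
  isAction : ∀ {X : 𝒱.Obj} (m : Model F X.V), IsAction A m
  equivariant : ∀ {X Y : 𝒱.Obj} (m : Model F X.V) (m' : Model F Y.V) {r : ℤ}
    {z : C.A (X.prod Y)}, C.Deg (X.dim + r) z →
    ∃ L : Ext F, IsFinite L ∧ m.L ≤ L ∧ m'.L ≤ L ∧ IsEquivariant A m m' r z L

/-- The cohomology of `X` is semisimple: for every model of `X` over a finite extension of `F`, the
representation of the Galois group of the field of definition, and of the Galois group of any finite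
extension `L` of it, on `H^i(X, ℚ_p)` is semisimple, for all `i`. -/
def HasSemisimpleCohomology (A : GaloisActions F H) (X : 𝒱.Obj) : Prop :=
  ∀ (m : Model F X.V) (i : ℤ) (L : Ext F), IsFinite L → m.L ≤ L →
    IsSemisimpleOn (gal L) (A.act m) (H.gr X i)

end Pool.Agent.U926.SF
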