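import Pool.Agent.U926.SF.EllDefs
import Pool.Agent.U926.SF.Galois

/-!
# Groups attached to varieties over finite fields: definitions
-/

universe u v

namespace Pool.Agent.U926.SF

open CategoryTheory Pool.Agent.H914 Pool.Agent.H914.VarClass Pool.Agent.H914.VarClass.Obj
  Pool.Agent.W492.BB

/-- Abelian groups `G m i` attached to the models `m` (over the finite extensions of `F`) of the
varieties over the algebraic closure of `F`, for indices `i` in a set `ι`; `shift i r` is the index
for the Tate twist by `r`. Examples:

* the K-groups `K_n(X₀)`, `i = n`, `shift n r = n`;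
* the groups `H^j_W(X₀, ℤ(n))`, `i = (j, n)`, `shift (j, n) r = (j - 2 r, n - r)`. -/
structure ModelGroups (F : Type u) [Field F] (𝒱 : VarClass (AlgebraicClosure F)) (ι : Type) where
  /-- the groups -/
  G : ∀ {X : 𝒱.Obj}, Model F X.V → ι → Type
  /-- the group structure -/
  grp : ∀ {X : 𝒱.Obj} (m : Model F X.V) (i : ι), AddCommGroup (G m i)
  /-- the index for the Tate twist -/
  shift : ι → ℤ → ι

attribute [instance] ModelGroups.grp

variable {F : Type u} [Field F] {𝒱 : VarClass (AlgebraicClosure F)} {ι : Type}

/-- The action of the correspondences, up to isogeny and finite extensions of the field. If the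
diagonal of `X` is a `ℚ`-linear combination of compositions `b_j ∘ a_j` of correspondences from `X` to
`Y_j` and from `Y_j` to `X`, where `a_j` lowers the codimensions by `r_j` and `b_j` raises them by
`r_j`, then for every model `m` of `X` there are models `m_j` of the `Y_j`, homomorphisms `α_j` from
`G(m)` to the groups `G(m_j)` (twisted by `r_j`), `β_j` in the other direction, and an integer `N > 0`,
such that `∑ β_j(α_j(x)) = N x`. (All correspondences are defined over a finite extension `L` of the
field of definition of `m`; `α_j` is the composition of the restriction to `L` and of a multiple of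
`a_j`, `β_j` is the composition of a multiple of `b_j` and of the transfer from `L`.) -/
def HasRetracts (C : TheoryData.{u, v, 0} 𝒱 ℚ) (W : ModelGroups F 𝒱 ι) : Prop :=
  ∀ (X : 𝒱.Obj) (n : ℕ) (Y : Fin n → 𝒱.Obj) (r : Fin n → ℤ) (q : Fin n → ℚ)
    (a : ∀ j, C.A (X.prod (Y j))) (b : ∀ j, C.A ((Y j).prod X)),
    (∀ j, C.Deg ((X.dim : ℤ) - r j) (a j)) → (∀ j, C.Deg (((Y j).dim : ℤ) + r j) (b j)) →
    C.graph (𝟙 X) = ∑ j, q j • C.comp (a j) (b j) → ∀ (m : Model F X.V) (i : ι),
    ∃ (m' : ∀ j, Model F (Y j).V) (α : ∀ j, W.G m i →+ W.G (m' j) (W.shift i (r j)))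
      (β : ∀ j, W.G (m' j) (W.shift i (r j)) →+ W.G m i) (N : ℕ), 0 < N ∧
        ∀ x, ∑ j, β j (α j x) = N • x

end Pool.Agent.U926.SF
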