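import Pool.Agent.U926.SF.CurDefs
import Pool.Agent.U926.SF.RetDefs

/-!
# Negative weights: definitions
-/

universe u v

namespace Pool.Agent.U926.SF

open Pool.Agent.H914 Pool.Agent.H914.VarClass.Obj Pool.Agent.W492.BB Pool.Agent.U926.HC

section curves

variable {k : Type u} [Field k] {𝒱 : VarClass k}

/-- The varieties of the theorem:

* the hypersurfaces `g_0(x^(0)) + ⋯ + g_r(x^(r)) = 0` (any `r`), where the `g_l` are nonsingular forms of
  the same degree `d ≥ 2`, prime to the characteristic, in separate sets of variables, each of at most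
  two variables, or at most four variables if `d = 3`;
* all varieties which are built from products of curves (abelian varieties, Kummer varieties, …);
* all products of such varieties. -/
inductive IsSumOfCurveType (C : TheoryData.{u, v, 0} 𝒱 ℚ) (T : Hypersurfaces 𝒱) : 𝒱.Obj → Prop
  | hypersurface (d : ℕ) {r : ℕ} {σ : Fin (r + 1) → Type} (g : ∀ l, MvPolynomial (σ l) k) :
      2 ≤ d → (d : k) ≠ 0 → HasBlocks d (curveVars d) g → IsSumOfCurveType C T (T.V (sumForms g))
  | curves (X : 𝒱.Obj) : IsBuiltFrom C IsCurveProduct X → IsSumOfCurveType C T X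
  | prod (X Y : 𝒱.Obj) : IsSumOfCurveType C T X → IsSumOfCurveType C T Y →
      IsSumOfCurveType C T (X.prod Y)

end curves

variable {F : Type u} [Field F] {𝒱 : VarClass (AlgebraicClosure F)}

/-- The groups `G m (i, n) = H^i(X₀_et, ℤ^c(n))`, `n < 0`, are finitely generated, for all models `X₀`
of `X` over finite extensions of `F`. -/
def NegativeWeights (W : ModelGroups F 𝒱 (ℤ × ℤ)) (X : 𝒱.Obj) : Prop :=
  ∀ (m : Model F X.V) (i n : ℤ), n < 0 → Module.Finite ℤ (W.G m (i, n))

/-- The theorem of Soulé, Geisser, Kahn and Morin: if `X` is built from products of curves (its Chow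
motive is of abelian type), then the groups `H^i(X₀_et, ℤ^c(n))`, `n < 0`, of the models are finitely
generated (a product of powers of the characteristic polynomials of the Frobenius on the cohomology
annihilates the motive, and `q ^ (dim X - n)` is not a root). -/
def AbelianTypeTheorem (C : TheoryData.{u, v, 0} 𝒱 ℚ) (W : ModelGroups F 𝒱 (ℤ × ℤ)) : Prop :=
  ∀ X : 𝒱.Obj, IsBuiltFrom C IsCurveProduct X → NegativeWeights W X

end Pool.Agent.U926.SF
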