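import Pool.Agent.U926.SF.Defs

/-!
# Hypersurfaces `g_0 + ⋯ + g_r = 0` built from products of curves: definitions
-/

universe u v

namespace Pool.Agent.U926.SF

open Pool.Agent.H914 Pool.Agent.H914.VarClass.Obj Pool.Agent.W492.BB Pool.Agent.U926.HC

variable {k : Type u} [Field k] {𝒱 : VarClass k}

/-- `X` is a product of curves and points. -/
inductive IsCurveProduct : 𝒱.Obj → Prop
  | factor (X : 𝒱.Obj) : X.dim ≤ 1 → IsCurveProduct X
  | prod (X Y : 𝒱.Obj) : IsCurveProduct X → IsCurveProduct Y → IsCurveProduct (X.prod Y)

/-- The bound for the number of the variables of the forms `g_l` of degree `d`: four for cubic forms,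
two for forms of all other degrees. -/
def curveVars (d : ℕ) : ℕ := if d = 3 then 4 else 2

/-- The known fact on the Chow motives of cubic hypersurfaces which is used: the cubic surfaces
(rational surfaces) and the cubic threefolds (their motive is `1 + L + h^1(J)(-1) + L^2 + L^3`, `J` the
intermediate Jacobian) are built from products of curves. -/
def CubicsHaveCurveMotives (C : TheoryData.{u, v, 0} 𝒱 ℚ) (T : Hypersurfaces 𝒱) : Prop :=
  ∀ {σ : Type} [Finite σ] (f : MvPolynomial σ k), IsNonsingularForm 3 f →
    4 ≤ Nat.card σ → Nat.card σ ≤ 5 → IsBuiltFrom C IsCurveProduct (T.V f)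

/-- The known fact on cyclic cubic fourfolds which is used (Laterveer, by the construction of van Geemen
and Izadi): the cubic fourfolds `f(x_0, …, x_4) + z ^ 3 = 0` have Chow motives of abelian type, so
they are built from products of curves. -/
def CyclicFourfoldsHaveCurveMotives (C : TheoryData.{u, v, 0} 𝒱 ℚ) (T : Hypersurfaces 𝒱) : Prop :=
  ∀ {σ : Type} [Finite σ] (f : MvPolynomial σ k), IsNonsingularForm 3 f →
    Nat.card σ = 5 → IsBuiltFrom C IsCurveProduct (T.V (addPow 3 f))

/-- The bound for the number of the variables of the forms `g_l` of degree `d` in characteristic zero: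
five for cubic forms, two for forms of all other degrees. -/
def blockVars (d : ℕ) : ℕ := if d = 3 then 5 else 2

/-- The varieties of the theorem in characteristic zero:

* the hypersurfaces `g_0(x^(0)) + ⋯ + g_r(x^(r)) = 0` (any `r`), where the `g_l` are nonsingular forms of
  the same degree `d ≥ 2` in separate sets of variables, each of at most two variables, or at most five
  variables if `d = 3`;
* all varieties which are built from products of curves (abelian varieties, Kummer varieties, …);
* all products of such varieties. -/
inductive IsCurveSum (C : TheoryData.{u, v, 0} 𝒱 ℚ) (T : Hypersurfaces 𝒱) : 𝒱.Obj → Prop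
  | hypersurface (d : ℕ) {r : ℕ} {σ : Fin (r + 1) → Type} (g : ∀ l, MvPolynomial (σ l) k) :
      2 ≤ d → HasBlocks d (blockVars d) g → IsCurveSum C T (T.V (sumForms g))
  | curves (X : 𝒱.Obj) : IsBuiltFrom C IsCurveProduct X → IsCurveSum C T X
  | prod (X Y : 𝒱.Obj) : IsCurveSum C T X → IsCurveSum C T Y → IsCurveSum C T (X.prod Y)

end Pool.Agent.U926.SF
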