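import Pool.Agent.U926.SF.Defs
import Pool.Agent.U926.HC.Corr

/-!
# Varieties built from other varieties: formal properties
-/

set_option autoImplicit false

open CategoryTheory AlgebraicGeometry MvPolynomial

universe u v

namespace Pool.Agent.U926.SF

open Pool.Agent.H914 Pool.Agent.H914.VarClass Pool.Agent.H914.VarClass.Obj Pool.Agent.W492.BB
  Pool.Agent.W550.Corr Pool.Agent.TH133 Pool.Agent.U926.HC

set_option linter.unusedSectionVars false

variable {k : Type u} [Field k] {𝒱 : VarClass k} {C : TheoryData.{u, v, 0} 𝒱 ℚ}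
  [hC : IsChowProj C] {G G' : 𝒱.Obj → Prop} {X Y Z : 𝒱.Obj}

include hC

lemma smul_comp' (q : ℚ) (a : C.A (X.prod Y)) (b : C.A (Y.prod Z)) :
    C.comp (q • a) b = q • C.comp a b :=
  LinearMap.map_smul₂ (compL C (X := X) (Y := Y) (Z := Z)) q a b

lemma comp_smul' (q : ℚ) (a : C.A (X.prod Y)) (b : C.A (Y.prod Z)) :
    C.comp a (q • b) = q • C.comp a b :=
  map_smul (compL C a) q b

/-- A variety with the property `G` is built from such varieties. -/
lemma isBuiltFrom_self (h : G X) : IsBuiltFrom C G X := by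
  refine Submodule.subset_span ⟨X, 0, dg C X, dg C X, h, ?_, ?_, (comp_dg C (dg C X)).symm⟩
  · rw [sub_zero]; exact dg_mem C X
  · rw [add_zero]; exact dg_mem C X

/-- Transitivity. -/
lemma IsBuiltFrom.trans (h : IsBuiltFrom C G X) (h' : ∀ Y, G Y → IsBuiltFrom C G' Y) :
    IsBuiltFrom C G' X := by
  unfold IsBuiltFrom at h
  refine Submodule.span_le.2 ?_ h
  rintro z ⟨Y, n, a, b, hY, ha, hb, rfl⟩
  have h1 := h' Y hY
  unfold IsBuiltFrom at h1
  have h2 : C.comp a b = C.comp a (C.comp (C.graph (𝟙 Y)) b) := by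
    have h3 : C.comp (dg C Y) b = b := dg_comp C b
    rw [show C.graph (𝟙 Y) = dg C Y from rfl, h3]
  change C.comp a b ∈ _
  rw [h2]
  refine Submodule.span_induction (p := fun ε _ => C.comp a (C.comp ε b) ∈ _) ?_ ?_ ?_ ?_ h1
  · rintro ε ⟨S, m, a', b', hS, ha', hb', rfl⟩
    refine Submodule.subset_span ⟨S, m + n, C.comp a a', C.comp b' b, hS, ?_, ?_, ?_⟩
    · have h1 := comp_gr ha ha'
      have e1 : (X.dim : ℤ) - n + ((Y.dim : ℤ) - m) - Y.dim = X.dim - (m + n) := by ring
      rwa [e1] at h1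
    · have h1 := comp_gr hb' hb
      have e1 : (S.dim : ℤ) + m + ((Y.dim : ℤ) + n) - Y.dim = S.dim + (m + n) := by ring
      rwa [e1] at h1
    · rw [comp_assoc C a' b' b, comp_assoc C a a' (C.comp b' b)]
  · rw [zero_comp, comp_zero]; exact Submodule.zero_mem _
  · intro x y _ _ hx hy
    rw [add_comp, comp_add]; exact Submodule.add_mem _ hx hy
  · intro q x _ hx
    rw [smul_comp', comp_smul']
    exact Submodule.smul_mem _ q hx

/-- Products. -/
lemma IsBuiltFrom.prod {G₁ G₂ : 𝒱.Obj → Prop} (h : IsBuiltFrom C G₁ X) (h' : IsBuiltFrom C G₂ Z)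
    (hG : ∀ Y W, G₁ Y → G₂ W → G (Y.prod W)) : IsBuiltFrom C G (X.prod Z) := by
  have key : ∀ z ∈ Submodule.span ℚ {z | ∃ (Y : 𝒱.Obj) (n : ℤ) (a : C.A (X.prod Y))
      (b : C.A (Y.prod X)), G₁ Y ∧ C.Deg ((X.dim : ℤ) - n) a ∧ C.Deg ((Y.dim : ℤ) + n) b ∧
        z = C.comp a b}, ∀ z' ∈ Submodule.span ℚ {z | ∃ (Y : 𝒱.Obj) (n : ℤ) (a : C.A (Z.prod Y))
      (b : C.A (Y.prod Z)), G₂ Y ∧ C.Deg ((Z.dim : ℤ) - n) a ∧ C.Deg ((Y.dim : ℤ) + n) b ∧
        z = C.comp a b}, tensL (C := C) z z' ∈ Submodule.span ℚ {z | ∃ (Y : 𝒱.Obj) (n : ℤ)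
          (a : C.A ((X.prod Z).prod Y)) (b : C.A (Y.prod (X.prod Z))), G Y ∧
          C.Deg (((X.prod Z).dim : ℤ) - n) a ∧ C.Deg ((Y.dim : ℤ) + n) b ∧ z = C.comp a b} := by
    intro z hz z' hz'
    refine Submodule.span_induction (p := fun z _ => tensL (C := C) z z' ∈ _) ?_ ?_ ?_ ?_ hz
    · rintro z ⟨S, n, a, b, hS, ha, hb, rfl⟩
      refine Submodule.span_induction
        (p := fun z' _ => tensL (C := C) (C.comp a b) z' ∈ _) ?_ ?_ ?_ ?_ hz'
      · rintro z' ⟨S', n', a', b', hS', ha', hb', rfl⟩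
        rw [tensL_apply]
        refine Submodule.subset_span ⟨S.prod S', n + n', tens C a a', tens C b b',
          hG _ _ hS hS', ?_, ?_, (tens_comp C (ch_comm C) _ _ _ _).symm⟩
        · have h1 := tens_mem C ha ha'
          have e1 : (X.dim : ℤ) - n + ((Z.dim : ℤ) - n') =
              (((X.prod Z).dim : ℕ) : ℤ) - (n + n') := by
            rw [dim_prod]; push_cast; ring
          rwa [e1] at h1
        · have h1 := tens_mem C hb hb'
          have e1 : (S.dim : ℤ) + n + ((S'.dim : ℤ) + n') =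
              (((S.prod S').dim : ℕ) : ℤ) + (n + n') := by
            rw [dim_prod]; push_cast; ring
          rwa [e1] at h1
      · rw [map_zero]; exact Submodule.zero_mem _
      · intro x y _ _ hx hy
        rw [map_add]; exact Submodule.add_mem _ hx hy
      · intro q x _ hx
        rw [map_smul]; exact Submodule.smul_mem _ q hx
    · rw [map_zero, LinearMap.zero_apply]; exact Submodule.zero_mem _
    · intro x y _ _ hx hy
      rw [map_add, LinearMap.add_apply]; exact Submodule.add_mem _ hx hy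
    · intro q x _ hx
      rw [map_smul, LinearMap.smul_apply]; exact Submodule.smul_mem _ q hx
  have h1 := key _ h _ h'
  rw [tensL_apply] at h1
  have h2 : tens C (dg C X) (dg C Z) = dg C (X.prod Z) := tens_dg C X Z
  change dg C (X.prod Z) ∈ _
  rw [← h2]
  exact h1

end Pool.Agent.U926.SF
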