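import Pool.Agent.U926.SF.Defs

/-!
# Hypersurfaces `g_0 + ⋯ + g_r = 0` built from products of elliptic curves: definitions
-/

universe u v

namespace Pool.Agent.U926.SF

open Pool.Agent.H914 Pool.Agent.H914.VarClass.Obj Pool.Agent.W492.BB Pool.Agent.U926.HC

variable {k : Type u} [Field k] {𝒱 : VarClass k}

/-- `X` is a product of elliptic curves and points (abelian varieties of dimension at most one). -/
inductive IsEllipticProduct : 𝒱.Obj → Prop
  | factor (X : 𝒱.Obj) : IsAbelianVariety X → X.dim ≤ 1 → IsEllipticProduct X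
  | prod (X Y : 𝒱.Obj) : IsEllipticProduct X → IsEllipticProduct Y → IsEllipticProduct (X.prod Y)

/-- The degrees `d` and the bounds `B` for the numbers of variables: `(3, 3)`, `(4, 2)`, and `(d, 1)`
for the divisors `d ≠ 24` of `24`. -/
def IsEllipticType (d B : ℕ) : Prop :=
  (d = 3 ∧ B = 3) ∨ (d = 4 ∧ B = 2) ∨ (d ∣ 24 ∧ d ≠ 24 ∧ B = 1)

/-- The known facts on the motives of hypersurfaces of small dimension which are used: the following
varieties are built from products of elliptic curves.

* `cubic`: plane cubic curves (elliptic curves) and cubic surfaces (rational surfaces);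
* `quartic`: the plane curves `f(x, y) + z ^ 4 = 0`, `f` a quartic form (their Jacobians are isogenous
  to products of elliptic curves);
* `fermat`: the Fermat curves `c x ^ d + y ^ d + z ^ d = 0` of the degrees `d ∣ 24`, `d ≠ 24`, that is
  `d = 2, 3, 4, 6, 8, 12` (the same). -/
structure HaveEllipticMotives (C : TheoryData.{u, v, 0} 𝒱 ℚ) (T : Hypersurfaces 𝒱) : Prop where
  cubic : ∀ {σ : Type} [Finite σ] (f : MvPolynomial σ k), IsNonsingularForm 3 f →
    3 ≤ Nat.card σ → Nat.card σ ≤ 4 → IsBuiltFrom C IsEllipticProduct (T.V f)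
  quartic : ∀ {σ : Type} [Finite σ] (f : MvPolynomial σ k), IsNonsingularForm 4 f →
    Nat.card σ = 2 → IsBuiltFrom C IsEllipticProduct (T.V (addPow 4 f))
  fermat : ∀ (d : ℕ) {σ : Type} [Finite σ] (g : MvPolynomial σ k), 2 ≤ d → d ∣ 24 → d ≠ 24 →
    IsNonsingularForm d g → Nat.card σ = 1 →
      IsBuiltFrom C IsEllipticProduct (T.V (addPow d (addPow d g)))

/-- The varieties of the theorem:

* the hypersurfaces `g_0(x^(0)) + ⋯ + g_r(x^(r)) = 0` (any `r`), where the `g_l` are nonsingular forms of
  the same degree `d ≥ 2` in separate sets of variables: cubic forms in at most three variables, or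
  quartic forms in at most two variables, or forms in one variable of a degree `d ∣ 24`, `d ≠ 24`;
* all varieties which are built from products of elliptic curves;
* all products of such varieties. -/
inductive IsEllipticSum (C : TheoryData.{u, v, 0} 𝒱 ℚ) (T : Hypersurfaces 𝒱) : 𝒱.Obj → Prop
  | hypersurface (d B : ℕ) {r : ℕ} {σ : Fin (r + 1) → Type} (g : ∀ l, MvPolynomial (σ l) k) :
      2 ≤ d → (d : k) ≠ 0 → IsEllipticType d B → HasBlocks d B g →
        IsEllipticSum C T (T.V (sumForms g))
  | elliptic (X : 𝒱.Obj) : IsBuiltFrom C IsEllipticProduct X → IsEllipticSum C T X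
  | prod (X Y : 𝒱.Obj) : IsEllipticSum C T X → IsEllipticSum C T Y →
      IsEllipticSum C T (X.prod Y)

end Pool.Agent.U926.SF
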