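import Pool.Agent.U926.SF.SemiDefs

/-!
# Semisimplicity: subgroups of finite index, and sums of images
-/

set_option autoImplicit false

open Module

namespace Pool.Agent.U926.SF

section average

variable {K E G : Type*} [Field K] [CharZero K] [AddCommGroup E] [Module K E] [Group G]

lemma exists_stable_compl (N : Subgroup G) [N.FiniteIndex] (ρ : G →* End K E)
    (W W' : Submodule K E) (hW : ∀ g, ∀ x ∈ W, ρ g x ∈ W) (hW' : ∀ g ∈ N, ∀ x ∈ W', ρ g x ∈ W')
    (h : IsCompl W W') :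
    ∃ W'' : Submodule K E, (∀ g, ∀ x ∈ W'', ρ g x ∈ W'') ∧ IsCompl W W'' := by
  classical
  obtain ⟨p, hp1, hp2, hp3⟩ : ∃ p : End K E, (∀ x, p x ∈ W) ∧ (∀ x ∈ W, p x = x) ∧
      ∀ x ∈ W', p x = 0 := by
    refine ⟨W.subtype ∘ₗ Submodule.projectionOnto W W' h, fun x => ?_, fun x hx => ?_,
      fun x hx => ?_⟩
    · exact (Submodule.projectionOnto W W' h x).2
    · have := Submodule.projectionOnto_apply_left h ⟨x, hx⟩
      simp only [LinearMap.comp_apply, Submodule.subtype_apply]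
      rw [this]
    · have := (Submodule.projectionOnto_apply_eq_zero_iff h (x := x)).2 hx
      simp only [LinearMap.comp_apply]
      rw [this, map_zero]
  have hpN : ∀ g ∈ N, ∀ x, p (ρ g x) = ρ g (p x) := by
    intro g hg x
    obtain ⟨y, hy, z, hz, rfl⟩ := Submodule.mem_sup.1 (h.sup_eq_top ▸ Submodule.mem_top :
      x ∈ W ⊔ W')
    rw [map_add, map_add, map_add, map_add, hp2 _ hy, hp3 _ hz, hp2 _ (hW g y hy),
      hp3 _ (hW' g hg z hz), map_zero]
  have hinv : ∀ g x, ρ g (ρ g⁻¹ x) = x := fun g x => by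
    rw [← End.mul_apply, ← map_mul, mul_inv_cancel, map_one, End.one_apply]
  have hinv' : ∀ g x, ρ g⁻¹ (ρ g x) = x := fun g x => by
    rw [← End.mul_apply, ← map_mul, inv_mul_cancel, map_one, End.one_apply]
  have hmul : ∀ g h x, ρ (g * h) x = ρ g (ρ h x) := fun g h x => by
    rw [map_mul, End.mul_apply]
  let A : G → End K E := fun g => ρ g ∘ₗ p ∘ₗ ρ g⁻¹
  have hA : ∀ g x, A g x = ρ g (p (ρ g⁻¹ x)) := fun _ _ => rfl
  have hAN : ∀ g n, n ∈ N → A (g * n) = A g := by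
    intro g n hn
    refine LinearMap.ext fun x => ?_
    rw [hA, hA, mul_inv_rev, hmul n⁻¹ g⁻¹, hpN _ (N.inv_mem hn), hmul, hinv]
  have hAq : ∀ g : G, A (QuotientGroup.mk (s := N) g).out = A g := by
    intro g
    obtain ⟨n, hn⟩ := QuotientGroup.mk_out_eq_mul N g
    rw [hn, hAN g n n.2]
  have : Fintype (G ⧸ N) := Fintype.ofFinite _
  let P : End K E := ∑ q : G ⧸ N, A q.out
  have hP : ∀ x, P x = ∑ q : G ⧸ N, A q.out x := fun x => by
    simp only [P, LinearMap.sum_apply]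
  have hPW : ∀ x, P x ∈ W := fun x => by
    rw [hP]
    exact Submodule.sum_mem _ fun q _ => hW _ _ (hp1 _)
  have hPw : ∀ x ∈ W, P x = (Fintype.card (G ⧸ N) : K) • x := by
    intro x hx
    rw [hP]
    have h1 : ∀ q ∈ (Finset.univ : Finset (G ⧸ N)), A q.out x = x := by
      intro q _
      rw [hA, hp2 _ (hW _ _ hx), hinv]
    rw [Finset.sum_congr rfl h1, Finset.sum_const, Finset.card_univ, Nat.cast_smul_eq_nsmul]
  have hcomm : ∀ g x, P (ρ g x) = ρ g (P x) := by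
    intro g x
    rw [hP, hP, map_sum]
    refine (Finset.sum_bijective (fun q : G ⧸ N => g • q) (MulAction.bijective g)
      (fun _ => by simp) fun q _ => ?_).symm
    have h1 : A (g • q).out = A (g * q.out) := by
      have h2 : g • q = QuotientGroup.mk (s := N) (g * q.out) := by
        conv_lhs => rw [← QuotientGroup.out_eq' q]
        rfl
      rw [h2, hAq]
    rw [h1, hA, hA, mul_inv_rev, hmul (g : G), hmul, hinv']
  have hm : (Fintype.card (G ⧸ N) : K) ≠ 0 := by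
    have : 0 < Fintype.card (G ⧸ N) := Fintype.card_pos
    exact_mod_cast this.ne'
  refine ⟨LinearMap.ker P, fun g x hx => ?_, ?_, ?_⟩
  · rw [LinearMap.mem_ker] at hx ⊢
    rw [hcomm, hx, map_zero]
  · rw [Submodule.disjoint_def]
    intro x hx hx'
    rw [LinearMap.mem_ker, hPw x hx] at hx'
    exact (smul_eq_zero.1 hx').resolve_left hm
  · rw [codisjoint_iff, eq_top_iff]
    intro x _
    have h1 : x = (Fintype.card (G ⧸ N) : K)⁻¹ • P x +
        (x - (Fintype.card (G ⧸ N) : K)⁻¹ • P x) := by abel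
    rw [h1]
    refine Submodule.add_mem_sup (Submodule.smul_mem _ _ (hPW x)) ?_
    rw [LinearMap.mem_ker, map_sub, map_smul, hPw _ (hPW x), smul_smul, inv_mul_cancel₀ hm,
      one_smul, sub_self]

end average

section stable

variable {K V Γ : Type*} [Field K] [AddCommGroup V] [Module K V] [Group Γ]

/-- Semisimplicity can be checked on a subgroup of finite index. -/
lemma IsSemisimpleOn.of_le [CharZero K] {S N : Subgroup Γ} (hNS : N ≤ S) [N.FiniteIndex]
    {ρ : Γ → End K V} (h1 : ρ 1 = 1) (hmul : ∀ g ∈ S, ∀ h ∈ S, ρ (g * h) = ρ g * ρ h)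
    {E : Submodule K V} (hE : IsStable S (fun g => ⇑(ρ g)) E) (h : IsSemisimpleOn N (fun g => ⇑(ρ g)) E) :
    IsSemisimpleOn S (fun g => ⇑(ρ g)) E := by
  intro W hWE hW
  obtain ⟨W', hW'E, hW', h2, h3⟩ := h W hWE fun g hg => hW g (hNS hg)
  let r : S →* End K E :=
    { toFun := fun g => (ρ g).restrict fun x hx => hE g g.2 x hx
      map_one' := by
        refine LinearMap.ext fun x => Subtype.ext ?_
        simp [LinearMap.restrict_apply, h1]
      map_mul' := fun g h => by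
        refine LinearMap.ext fun x => Subtype.ext ?_
        simp [LinearMap.restrict_apply, hmul g g.2 h h.2] }
  have hr : ∀ (g : S) (x : E), ((r g x : E) : V) = ρ g x := fun _ _ => rfl
  have hc : IsCompl (W.comap E.subtype) (W'.comap E.subtype) := by
    constructor
    · rw [Submodule.disjoint_def]
      intro x hx hx'
      have h4 : (x : V) ∈ W ⊓ W' := ⟨hx, hx'⟩
      rw [h2] at h4
      exact Subtype.ext ((Submodule.mem_bot _).1 h4)
    · rw [codisjoint_iff, eq_top_iff]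
      intro x _
      have h4 : (x : V) ∈ W ⊔ W' := by rw [h3]; exact x.2
      obtain ⟨y, hy, z, hz, hyz⟩ := Submodule.mem_sup.1 h4
      refine Submodule.mem_sup.2 ⟨⟨y, hWE hy⟩, hy, ⟨z, hW'E hz⟩, hz, Subtype.ext hyz⟩
  obtain ⟨W'', h4, h5⟩ := exists_stable_compl (N.subgroupOf S) r (W.comap E.subtype)
    (W'.comap E.subtype) (fun g x hx => hW g g.2 x hx)
    (fun g hg x hx => hW' g (Subgroup.mem_subgroupOf.1 hg) x hx) hc
  refine ⟨W''.map E.subtype, ?_, ?_, ?_, ?_⟩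
  · rintro _ ⟨x, -, rfl⟩
    exact x.2
  · rintro g hg _ ⟨x, hx, rfl⟩
    exact ⟨r ⟨g, hg⟩ x, h4 ⟨g, hg⟩ x hx, rfl⟩
  · rw [eq_bot_iff]
    rintro _ ⟨hx, ⟨x, hx', rfl⟩⟩
    have h6 : x = 0 := (Submodule.disjoint_def.1 h5.disjoint) x hx hx'
    rw [h6, map_zero]
    exact Submodule.zero_mem _
  · refine le_antisymm (sup_le hWE ?_) fun x hx => ?_
    · rintro _ ⟨x, -, rfl⟩
      exact x.2
    · have h6 : (⟨x, hx⟩ : E) ∈ W.comap E.subtype ⊔ W'' := by
        rw [h5.sup_eq_top]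
        exact Submodule.mem_top
      obtain ⟨y, hy, z, hz, hyz⟩ := Submodule.mem_sup.1 h6
      refine Submodule.mem_sup.2 ⟨y, hy, z, ⟨z, hz, rfl⟩, ?_⟩
      exact congrArg Subtype.val hyz

/-- A sum of images of semisimple representations under maps which are equivariant up to a scalar
factor is semisimple. -/
lemma IsSemisimpleOn.of_sum {J : Type*} {V' : J → Type*} [∀ j, AddCommGroup (V' j)]
    [∀ j, Module K (V' j)] {S : Subgroup Γ} {ρ : Γ → End K V} {ρ' : ∀ j, Γ → End K (V' j)}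
    {E : Submodule K V} {E' : ∀ j, Submodule K (V' j)} (b : ∀ j, V' j →ₗ[K] V)
    (c : J → Γ → Kˣ) (hE' : ∀ j, IsStable S (fun g => ⇑(ρ' j g)) (E' j))
    (hb : ∀ j, ∀ g ∈ S, ∀ x, ρ g (b j x) = (c j g : K) • b j (ρ' j g x))
    (hbE : ∀ j, (E' j).map (b j) ≤ E) (hsum : ∀ x ∈ E, x ∈ ⨆ j, (E' j).map (b j))
    (hss : ∀ j, IsSemisimpleOn S (fun g => ⇑(ρ' j g)) (E' j)) : IsSemisimpleOn S (fun g => ⇑(ρ g)) E := by
  intro W hWE hW
  -- a maximal stable subspace of `E` which meets `W` in zero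
  obtain ⟨M, hM, hmax⟩ := zorn_le_nonempty₀
    {M : Submodule K V | M ≤ E ∧ IsStable S (fun g => ⇑(ρ g)) M ∧ W ⊓ M = ⊥} (by
      intro c hc hchain y hy
      refine ⟨sSup c, ⟨sSup_le fun M hM => (hc hM).1, ?_, ?_⟩, fun M hM => le_sSup hM⟩
      · intro g hg x hx
        obtain ⟨M, hM, hxM⟩ := (Submodule.mem_sSup_of_directed ⟨y, hy⟩
          hchain.directedOn).1 hx
        exact (le_sSup hM : M ≤ sSup c) ((hc hM).2.1 g hg x hxM)
      · rw [eq_bot_iff]
        rintro x ⟨hx, hx'⟩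
        obtain ⟨M, hM, hxM⟩ := (Submodule.mem_sSup_of_directed ⟨y, hy⟩
          hchain.directedOn).1 hx'
        rw [← (hc hM).2.2]
        exact ⟨hx, hxM⟩) ⊥ ⟨bot_le, fun g _ x hx => by
          rw [Submodule.mem_bot] at hx ⊢
          change ρ g x = 0
          rw [hx, map_zero], by simp⟩
  obtain ⟨hME, hMS, hMW⟩ := hmax.prop
  refine ⟨M, hME, hMS, hMW, le_antisymm (sup_le hWE hME) fun x hx => ?_⟩
  have hUS : IsStable S (fun g => ⇑(ρ g)) (W ⊔ M) := by
    intro g hg x hx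
    obtain ⟨y, hy, z, hz, rfl⟩ := Submodule.mem_sup.1 hx
    change ρ g (y + z) ∈ _
    rw [map_add]
    exact Submodule.add_mem_sup (hW g hg y hy) (hMS g hg z hz)
  suffices h : ∀ j, (E' j).map (b j) ≤ W ⊔ M from (iSup_le h) (hsum x hx)
  intro j
  obtain ⟨D, hDE, hDS, hD1, hD2⟩ := hss j ((W ⊔ M).comap (b j) ⊓ E' j) inf_le_right (by
    rintro g hg x ⟨hx, hx'⟩
    refine ⟨?_, hE' j g hg x hx'⟩
    have h1 : ρ g (b j x) ∈ W ⊔ M := hUS g hg _ hx
    rw [hb j g hg] at h1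
    have h2 := Submodule.smul_mem _ ((c j g)⁻¹ : Kˣ).1 h1
    rwa [smul_smul, Units.inv_mul, one_smul] at h2)
  have hstab : IsStable S (fun g => ⇑(ρ g)) (D.map (b j)) := by
    rintro g hg _ ⟨x, hx, rfl⟩
    change ρ g (b j x) ∈ _
    rw [hb j g hg]
    exact Submodule.smul_mem _ _ ⟨_, hDS g hg x hx, rfl⟩
  have hDU : ∀ y ∈ D.map (b j), y ∈ W ⊔ M → y = 0 := by
    rintro _ ⟨x, hx, rfl⟩ h1
    have h2 : x ∈ (W ⊔ M).comap (b j) ⊓ E' j ⊓ D := ⟨⟨h1, hDE hx⟩, hx⟩
    rw [hD1] at h2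
    rw [(Submodule.mem_bot _).1 h2, map_zero]
  have hbig : M ⊔ D.map (b j) ≤ M := by
    refine hmax.le_of_ge ⟨sup_le hME ((Submodule.map_mono hDE).trans (hbE j)), ?_, ?_⟩
      le_sup_left
    · intro g hg x hx
      obtain ⟨y, hy, z, hz, rfl⟩ := Submodule.mem_sup.1 hx
      change ρ g (y + z) ∈ _
      rw [map_add]
      exact Submodule.add_mem_sup (hMS g hg y hy) (hstab g hg z hz)
    · rw [eq_bot_iff]
      rintro w ⟨hw, hw'⟩
      obtain ⟨y, hy, z, hz, hyz⟩ := Submodule.mem_sup.1 hw'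
      have h1 : z = w - y := by rw [← hyz]; abel
      have h2 : z = 0 := hDU z hz (by
        rw [h1]
        exact Submodule.sub_mem _ (Submodule.mem_sup_left hw) (Submodule.mem_sup_right hy))
      rw [h2, add_zero] at hyz
      rw [← hMW]
      exact ⟨hw, hyz ▸ hy⟩
  rintro _ ⟨x, hx, rfl⟩
  rw [← hD2] at hx
  obtain ⟨y, hy, z, hz, rfl⟩ := Submodule.mem_sup.1 hx
  rw [map_add]
  refine Submodule.add_mem _ hy.1 ?_
  exact Submodule.mem_sup_right (hbig (Submodule.mem_sup_right ⟨z, hz, rfl⟩))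

end stable

end Pool.Agent.U926.SF
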