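import Pool.Agent.U926.SF.Galois
import Pool.Agent.U926.SF.Semi
import Pool.Agent.U926.SF.Ab
import Pool.Agent.TH133.Dual

/-!
# Semisimplicity for varieties built from other varieties
-/

set_option autoImplicit false

open CategoryTheory AlgebraicGeometry

universe u v

namespace Pool.Agent.U926.SF

open Pool.Agent.H914 Pool.Agent.H914.VarClass Pool.Agent.H914.VarClass.Obj Pool.Agent.W492.BB
  Pool.Agent.W550.Corr Pool.Agent.TH133

variable {F : Type u} [Field F] [NumberField F] {𝒱 : VarClass (AlgebraicClosure F)}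
  {C : TheoryData.{u, v, 0} 𝒱 ℚ} {p : ℕ} [Fact p.Prime] {H : WeilTheoryData.{u, v, 0} C ℚ_[p]}
  {A : GaloisActions F H}

lemma finiteIndex_fixingSubgroup (L : IntermediateField F (AlgebraicClosure F))
    [FiniteDimensional F L] : (gal L).FiniteIndex := by
  have h1 : L.fixingSubgroup.index ≠ 0 := by
    rw [← IntermediateField.finrank_eq_fixingSubgroup_index]
    exact Module.finrank_pos.ne'
  exact ⟨h1⟩

lemma cl_smul_rat' {X : 𝒱.Obj} (q : ℚ) (z : C.A X) :
    H.cl (q • z) = (q : ℚ_[p]) • H.cl z := by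
  have h1 : (H.cl (X := X)).comp (algebraMap ℚ (C.A X)) =
      (algebraMap ℚ_[p] (H.A X)).comp (Rat.castHom ℚ_[p]) := Subsingleton.elim _ _
  have h2 := RingHom.congr_fun h1 q
  rw [RingHom.comp_apply, RingHom.comp_apply] at h2
  rw [Algebra.smul_def, map_mul, h2, Algebra.smul_def]
  rfl

/-- The action as a linear map. -/
noncomputable def IsAction.map {X : 𝒱.Obj} {m : Model F X.V} (h : IsAction A m) (g : GalF F) :
    Module.End ℚ_[p] (H.A X) := IsLinearMap.mk' (A.act m g) (h.linear g)

/-- If `X` is built from varieties with semisimple cohomology, then its cohomology is semisimple. -/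
theorem HasSemisimpleCohomology.of_isBuiltFrom [hC : IsChowProj C] [hH : IsWeilProj H]
    (hA : A.IsGaloisTheory) {G : 𝒱.Obj → Prop} (hG : ∀ Y, G Y → HasSemisimpleCohomology A Y)
    {X : 𝒱.Obj} (hX : IsBuiltFrom C G X) : HasSemisimpleCohomology A X := by
  classical
  intro m i L hL hmL
  have hL0 : FiniteDimensional F L := hL
  obtain ⟨T, hT, hX'⟩ := Submodule.mem_span_finite_of_mem_span hX
  have hT' : ∀ z : T, ∃ (Y : 𝒱.Obj) (n : ℤ) (a : C.A (X.prod Y)) (b : C.A (Y.prod X)), G Y ∧
      C.Deg ((X.dim : ℤ) - n) a ∧ C.Deg ((Y.dim : ℤ) + n) b ∧ (z : C.A (X.prod X)) = C.comp a b :=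
    fun z => hT z.2
  choose Y n a b hY ha hb hz using hT'
  have m' : ∀ z, Model F (Y z).V := fun z => (hA.exists_model (Y z)).some
  choose L' hL'fin hL1 hL2 hL3 using fun z : T => hA.equivariant (m' z) m (hb z)
  let N : IntermediateField F (AlgebraicClosure F) := L ⊔ ⨆ z : T, L' z
  have hfin : FiniteDimensional F (⨆ z : T, L' z : IntermediateField F (AlgebraicClosure F)) := by
    have : ∀ z, FiniteDimensional F (L' z) := hL'fin
    exact IntermediateField.finiteDimensional_iSup_of_finite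
  have hNfin : FiniteDimensional F N := IntermediateField.finiteDimensional_sup _ _
  have hLN : L ≤ N := le_sup_left
  have hL'N : ∀ z, L' z ≤ N := fun z => (le_iSup L' z).trans le_sup_right
  have hfix : ∀ {L₁ L₂ : IntermediateField F (AlgebraicClosure F)}, L₁ ≤ L₂ →
      gal L₂ ≤ gal L₁ := fun h => IntermediateField.fixingSubgroup_le h
  have := finiteIndex_fixingSubgroup N
  refine IsSemisimpleOn.of_le (ρ := (hA.isAction m).map) (hfix hLN)
    (LinearMap.ext (hA.isAction m).one)
    (fun g hg h hh => LinearMap.ext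
      ((hA.isAction m).mul g (hfix hmL hg) h (hfix hmL hh)))
    (fun g hg x hx => (hA.isAction m).deg g (hfix hmL hg) hx) ?_
  refine IsSemisimpleOn.of_sum (J := T) (V' := fun z => H.A (Y z))
    (ρ' := fun z => (hA.isAction (m' z)).map) (E' := fun z => H.gr (Y z) (i - 2 * n z))
    (fun z => H.actL (H.cl (b z))) (fun z g => A.chi g ^ (-n z)) ?_ ?_ ?_ ?_ ?_
  · intro z g hg x hx
    exact (hA.isAction (m' z)).deg g (hfix ((hL1 z).trans (hL'N z)) hg) hx
  · intro z g hg x
    exact hL3 z g (hfix (hL'N z) hg) x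
  · rintro z _ ⟨x, hx, rfl⟩
    have h1 := actH_mem H (hb z) hx
    have e1 : i - 2 * n z + 2 * n z = i := by ring
    rwa [e1] at h1
  · intro x hx
    have key : ∀ ε ∈ Submodule.span ℚ (T : Set (C.A (X.prod X))), H.act (H.cl ε) x ∈
        ⨆ z : T, (H.gr (Y z) (i - 2 * n z)).map (H.actL (H.cl (b z))) := by
      intro ε hε
      refine Submodule.span_induction (p := fun ε _ => H.act (H.cl ε) x ∈
        ⨆ z : T, (H.gr (Y z) (i - 2 * n z)).map (H.actL (H.cl (b z)))) ?_ ?_ ?_ ?_ hε
      · intro z hzT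
        have h0 : H.act (H.cl z) x =
            H.act (H.cl (b ⟨z, hzT⟩)) (H.act (H.cl (a ⟨z, hzT⟩)) x) := by
          rw [← actH_comp, ← hz ⟨z, hzT⟩]
        rw [h0]
        refine Submodule.mem_iSup_of_mem ⟨z, hzT⟩ ⟨_, ?_, rfl⟩
        have h1 := ha ⟨z, hzT⟩
        rw [sub_eq_add_neg] at h1
        have h2 := actH_mem H h1 hx
        have e1 : i + 2 * (-n ⟨z, hzT⟩) = i - 2 * n ⟨z, hzT⟩ := by ring
        rwa [e1] at h2
      · rw [actH_zero]
        exact Submodule.zero_mem _
      · intro y z _ _ hy hz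
        rw [map_add, H.act_add]
        exact Submodule.add_mem _ hy hz
      · intro q y _ hy
        have h1 : H.act (H.cl (q • y)) x = (q : ℚ_[p]) • H.act (H.cl y) x := by
          rw [cl_smul_rat']
          exact LinearMap.map_smul₂ (actB H.toTheoryData) (q : ℚ_[p]) (H.cl y) x
        rw [h1]
        exact Submodule.smul_mem _ _ hy
    have h1 := key _ hX'
    have h2 : H.act (H.cl (dg C X)) x = x := actH_dg H x
    change H.act (H.cl (dg C X)) x ∈ _ at h1
    rwa [h2] at h1
  · intro z
    exact hG (Y z) (hY z) (m' z) (i - 2 * n z) N hNfin ((hL1 z).trans (hL'N z))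

end Pool.Agent.U926.SF
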