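import Pool.Agent.U926.SF.CurDefs
import Pool.Agent.TH829.Kim.Defs

/-!
# Kimura's theorem on finite-dimensional motives
-/

universe u v

namespace Pool.Agent.U926.SF

open Pool.Agent.H914 Pool.Agent.W492.BB Pool.Agent.TH829.Kim

variable {k : Type u} [Field k] {𝒱 : VarClass k}

/-- **Kimura's theorem**: the motives of curves are finite-dimensional, and finite-dimensionality passes
to tensor products, finite sums, Tate twists and direct summands. So all varieties which are built
from products of curves have finite-dimensional Chow motives. -/
def KimuraTheorem (C : TheoryData.{u, v, 0} 𝒱 ℚ) : Prop :=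
  ∀ X : 𝒱.Obj, IsBuiltFrom C IsCurveProduct X → IsKimuraFinite C (ratFam C) X

end Pool.Agent.U926.SF
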