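import Pool.Agent.U926.SF.PeriodDefs
import Pool.Agent.U926.SF.Ell

/-!
# The Grothendieck period conjecture for algebraic cycles: varieties built from other varieties
-/

set_option autoImplicit false

open CategoryTheory AlgebraicGeometry

universe u v w

namespace Pool.Agent.U926.SF

open Pool.Agent.H914 Pool.Agent.H914.VarClass Pool.Agent.H914.VarClass.Obj Pool.Agent.W492.BB
  Pool.Agent.W550.Corr Pool.Agent.TH133

lemma cl_smul_rat' {k : Type u} [Field k] {𝒱 : VarClass k} {C : TheoryData.{u, v, 0} 𝒱 ℚ}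
    {K : Type w} [Field K] [CharZero K] {H : WeilTheoryData.{u, v, w} C K} {X : 𝒱.Obj} (q : ℚ)
    (z : C.A X) : H.cl (q • z) = (q : K) • H.cl z := by
  have h1 : (H.cl (X := X)).comp (algebraMap ℚ (C.A X)) =
      (algebraMap K (H.A X)).comp (Rat.castHom K) := Subsingleton.elim _ _
  have h2 := RingHom.congr_fun h1 q
  rw [RingHom.comp_apply, RingHom.comp_apply] at h2
  rw [Algebra.smul_def, map_mul, h2, Algebra.smul_def]
  rfl

variable {k : Type u} [Field k] {𝒱 : VarClass k} {C : TheoryData.{u, v, 0} 𝒱 ℚ}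
  {H : WeilTheoryData.{u, v, 0} C ℂ} {S : PeriodData H}

lemma PeriodData.act (h1 : S.DeRhamTheory) (h2 : S.BettiTheory) {X Y : 𝒱.Obj} {r i : ℤ}
    {Γ : C.A (X.prod Y)} (hΓ : C.Deg r Γ) {γ : H.A X} (hγ : S.IsGr i γ) :
    S.IsGr (r + i - X.dim) (H.act (H.cl Γ) γ) := by
  constructor
  · have h := h1.push (snd X Y) (h1.mul (h1.cycles hΓ) (h1.pull (fst X Y) hγ.1))
    have e1 : 2 * r + 2 * i + 2 * ((Y.dim : ℤ) - ((X.prod Y).dim : ℤ)) =
        2 * (r + i - X.dim) := by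
      rw [dim_prod]; push_cast; ring
    rwa [e1] at h
  · have h := h2.push (snd X Y) (h2.mul (h2.cycles hΓ) (h2.pull (fst X Y) hγ.2))
    have e1 : 2 * r + 2 * i + 2 * ((Y.dim : ℤ) - ((X.prod Y).dim : ℤ)) =
        2 * (r + i - X.dim) := by
      rw [dim_prod]; push_cast; ring
    have e2 : r + i + ((Y.dim : ℤ) - ((X.prod Y).dim : ℤ)) = r + i - X.dim := by
      rw [dim_prod]; push_cast; ring
    rwa [e1, e2] at h

/-- If `X` is built from varieties which satisfy the period conjecture, then so does `X`. -/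
theorem PeriodConjecture.of_isBuiltFrom [hC : IsChowProj C] [hH : IsWeilProj H]
    (h1 : S.DeRhamTheory) (h2 : S.BettiTheory) {G : 𝒱.Obj → Prop}
    (hG : ∀ Y, G Y → PeriodConjecture S Y) {X : 𝒱.Obj} (hX : IsBuiltFrom C G X) :
    PeriodConjecture S X := by
  intro j γ hγ
  have key : ∀ ε ∈ Submodule.span ℚ {z | ∃ (Y : 𝒱.Obj) (n : ℤ) (a : C.A (X.prod Y))
      (b : C.A (Y.prod X)), G Y ∧ C.Deg ((X.dim : ℤ) - n) a ∧ C.Deg ((Y.dim : ℤ) + n) b ∧
        z = C.comp a b}, ∃ z : C.A X, C.Deg j z ∧ H.cl z = H.act (H.cl ε) γ := by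
    intro ε hε
    refine Submodule.span_induction (p := fun ε _ => ∃ z : C.A X, C.Deg j z ∧
      H.cl z = H.act (H.cl ε) γ) ?_ ?_ ?_ ?_ hε
    · rintro z ⟨Y, n, a, b, hY, ha, hb, rfl⟩
      obtain ⟨y, hy, hyγ⟩ := hG Y hY _ _ (S.act h1 h2 ha hγ)
      refine ⟨C.act b y, ?_, ?_⟩
      · have h3 := act_mem' C (e := n) hb hy
        have e1 : (X.dim : ℤ) - n + j - X.dim + n = j := by ring
        rwa [e1] at h3
      · rw [actH_comp, ← hyγ, cl_act]
    · refine ⟨0, Submodule.zero_mem _, ?_⟩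
      rw [actH_zero, map_zero]
    · rintro x y _ _ ⟨z, hz, hzx⟩ ⟨z', hz', hzy⟩
      refine ⟨z + z', Submodule.add_mem _ hz hz', ?_⟩
      rw [map_add, map_add, H.act_add, hzx, hzy]
    · rintro q x _ ⟨z, hz, hzx⟩
      refine ⟨q • z, Submodule.smul_mem _ q hz, ?_⟩
      have h3 : H.act (H.cl (q • x)) γ = (q : ℂ) • H.act (H.cl x) γ := by
        rw [cl_smul_rat']
        exact LinearMap.map_smul₂ (actB H.toTheoryData) (q : ℂ) (H.cl x) γ
      rw [h3, cl_smul_rat', hzx]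
  have h3 := key _ hX
  have h4 : H.act (H.cl (dg C X)) γ = γ := actH_dg H γ
  change ∃ z : C.A X, C.Deg j z ∧ H.cl z = H.act (H.cl (dg C X)) γ at h3
  rwa [h4] at h3

end Pool.Agent.U926.SF
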