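import Pool.Agent.U926.SF.TateDefs
import Pool.Agent.U926.SF.Period

/-!
# The Tate conjecture: varieties built from other varieties
-/

set_option autoImplicit false

open CategoryTheory AlgebraicGeometry

universe u v

namespace Pool.Agent.U926.SF

open Pool.Agent.H914 Pool.Agent.H914.VarClass Pool.Agent.H914.VarClass.Obj Pool.Agent.W492.BB
  Pool.Agent.W550.Corr Pool.Agent.TH133

variable {F : Type u} [Field F] {𝒱 : VarClass (AlgebraicClosure F)}
  {C : TheoryData.{u, v, 0} 𝒱 ℚ} {p : ℕ} [Fact p.Prime] {H : WeilTheoryData.{u, v, 0} C ℚ_[p]}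
  {A : GaloisActions F H}

lemma gal_anti {L₁ L₂ : Ext F} (h : L₁ ≤ L₂) : gal L₂ ≤ gal L₁ :=
  IntermediateField.fixingSubgroup_le h

lemma isCycleCombination_iff {X : 𝒱.Obj} {j : ℤ} {γ : H.A X} : IsCycleCombination H j γ ↔
    γ ∈ Submodule.span ℚ_[p] {c | ∃ z : C.A X, C.Deg j z ∧ c = H.cl z} := by
  constructor
  · intro h
    induction h with
    | zero => exact Submodule.zero_mem _
    | add c z γ hz _ h =>
      exact Submodule.add_mem _ (Submodule.smul_mem _ _ (Submodule.subset_span ⟨z, hz, rfl⟩)) h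
  · intro h
    induction h using Submodule.closure_induction with
    | zero => exact .zero
    | add x y _ _ hx hy =>
      clear * - hx hy
      induction hx with
      | zero => rwa [zero_add]
      | add c z γ hz _ h =>
        rw [add_assoc]
        exact .add c z _ hz h
    | smul_mem c x hx =>
      obtain ⟨z, hz, rfl⟩ := hx
      rw [← add_zero (c • H.cl z)]
      exact .add c z _ hz .zero

/-- The image of a Tate class under a correspondence is a Tate class over a finite extension. -/
lemma exists_isTateClass [hC : IsChowProj C] [hH : IsWeilProj H] (hA : IsTateTheory A)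
    {X Y : 𝒱.Obj} {m : Model F X.V} {L : Ext F} (hL : IsFinite L) {j : ℤ} {γ : H.A X}
    (hγ : IsTateClass A m L j γ) (m' : Model F Y.V) {n : ℤ} {a : C.A (X.prod Y)}
    (ha : C.Deg ((X.dim : ℤ) - n) a) : ∃ L' : Ext F, IsFinite L' ∧ m'.L ≤ L' ∧
      IsTateClass A m' L' (j - n) (star H a γ) := by
  have ha' : C.Deg ((X.dim : ℤ) + -n) a := by rwa [← sub_eq_add_neg]
  obtain ⟨L₁, h1, h2, h3, h4⟩ := hA.equivariant m m' ha'
  have f1 : FiniteDimensional F L := hL
  have f2 : FiniteDimensional F L₁ := h1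
  refine ⟨L ⊔ L₁, IntermediateField.finiteDimensional_sup _ _, h3.trans le_sup_right, ?_, ?_⟩
  · have h5 := actH_mem H ha' hγ.1
    have e1 : 2 * j + 2 * -n = 2 * (j - n) := by ring
    rwa [e1] at h5
  · intro g hg
    rw [h4 g (gal_anti le_sup_right hg) γ, hγ.2 g (gal_anti le_sup_left hg)]
    have h5 : star H a (A.twist j g γ) = A.twist j g (star H a γ) :=
      map_smul (H.actL (H.cl a)) _ γ
    rw [h5, GaloisActions.twist, GaloisActions.twist, smul_smul, GaloisActions.twist,
      ← Units.val_mul, ← zpow_add]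
    congr 3
    ring

lemma IsCycleCombination.star [hC : IsChowProj C] [hH : IsWeilProj H] {X Y : 𝒱.Obj} {j n : ℤ}
    {γ : H.A Y} (hγ : IsCycleCombination H (j - n) γ) {b : C.A (Y.prod X)}
    (hb : C.Deg ((Y.dim : ℤ) + n) b) : IsCycleCombination H j (star H b γ) := by
  simp only [isCycleCombination_iff] at hγ ⊢
  refine Submodule.span_induction (p := fun γ _ => SF.star H b γ ∈
    Submodule.span ℚ_[p] {c | ∃ z : C.A X, C.Deg j z ∧ c = H.cl z}) ?_ ?_ ?_ ?_ hγ
  · rintro _ ⟨z, hz, rfl⟩
    refine Submodule.subset_span ⟨C.act b z, ?_, ?_⟩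
    · have h3 := act_mem' C (e := n) hb hz
      have e1 : j - n + n = j := by ring
      rwa [e1] at h3
    · exact (cl_act H b z).symm
  · have h1 : SF.star H b 0 = 0 := map_zero (H.actL (H.cl b))
    rw [h1]
    exact Submodule.zero_mem _
  · intro x y _ _ hx hy
    have h1 : SF.star H b (x + y) = SF.star H b x + SF.star H b y :=
      map_add (H.actL (H.cl b)) x y
    rw [h1]
    exact Submodule.add_mem _ hx hy
  · intro q x _ hx
    have h1 : SF.star H b (q • x) = q • SF.star H b x := map_smul (H.actL (H.cl b)) q x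
    rw [h1]
    exact Submodule.smul_mem _ q hx

/-- If `X` is built from varieties which satisfy the Tate conjecture, then so does `X`. -/
theorem TateConjecture.of_isBuiltFrom [hC : IsChowProj C] [hH : IsWeilProj H]
    (hA : IsTateTheory A) {G : 𝒱.Obj → Prop} (hG : ∀ Y, G Y → TateConjecture A Y)
    {X : 𝒱.Obj} (hX : IsBuiltFrom C G X) : TateConjecture A X := by
  intro m L hL hmL j γ hγ
  have key : ∀ ε ∈ Submodule.span ℚ {z | ∃ (Y : 𝒱.Obj) (n : ℤ) (a : C.A (X.prod Y))
      (b : C.A (Y.prod X)), G Y ∧ C.Deg ((X.dim : ℤ) - n) a ∧ C.Deg ((Y.dim : ℤ) + n) b ∧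
        z = C.comp a b}, IsCycleCombination H j (H.act (H.cl ε) γ) := by
    intro ε hε
    rw [isCycleCombination_iff]
    refine Submodule.span_induction (p := fun ε _ => H.act (H.cl ε) γ ∈
      Submodule.span ℚ_[p] {c | ∃ z : C.A X, C.Deg j z ∧ c = H.cl z}) ?_ ?_ ?_ ?_ hε
    · rintro z ⟨Y, n, a, b, hY, ha, hb, rfl⟩
      obtain ⟨m'⟩ := hA.exists_model Y
      obtain ⟨L', h1, h2, h3⟩ := exists_isTateClass hA hL hγ m' ha
      have h4 := (hG Y hY m' L' h1 h2 _ _ h3).star hb
      rw [actH_comp]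
      exact isCycleCombination_iff.1 h4
    · rw [actH_zero]
      exact Submodule.zero_mem _
    · intro x y _ _ hx hy
      rw [map_add, H.act_add]
      exact Submodule.add_mem _ hx hy
    · intro q x _ hx
      have h3 : H.act (H.cl (q • x)) γ = (q : ℚ_[p]) • H.act (H.cl x) γ := by
        rw [cl_smul_rat']
        exact LinearMap.map_smul₂ (actB H.toTheoryData) (q : ℚ_[p]) (H.cl x) γ
      rw [h3]
      exact Submodule.smul_mem _ _ hx
  have h3 := key _ hX
  have h4 : H.act (H.cl (dg C X)) γ = γ := actH_dg H γ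
  change IsCycleCombination H j (H.act (H.cl (dg C X)) γ) at h3
  rwa [h4] at h3

end Pool.Agent.U926.SF
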