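import Pool.Agent.U926.SF.MTDefs
import Pool.Agent.U926.SF.Tate
import Pool.Agent.U926.SF.Sums2

/-!
# The Mumford–Tate conjecture: varieties built from other varieties
-/

set_option autoImplicit false

open CategoryTheory AlgebraicGeometry MvPolynomial

universe u v

namespace Pool.Agent.U926.SF

open Pool.Agent.H914 Pool.Agent.H914.VarClass Pool.Agent.H914.VarClass.Obj Pool.Agent.W492.BB
  Pool.Agent.W550.Corr Pool.Agent.TH133 Pool.Agent.U926.HC

section motives

variable {k : Type u} [Field k] {𝒱 : VarClass k} [CharZero k] {C : TheoryData.{u, v, 0} 𝒱 ℚ}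
  [hC : IsChowProj C] {T : Hypersurfaces 𝒱}

include hC

lemma isGood_known {d : ℕ} (hd : 2 ≤ d) (hT : IsKatsuraShioda C T d) {r : ℕ}
    {σ : Fin (r + 1) → Type} (g : ∀ l, MvPolynomial (σ l) k) (hg : HasBlocks d (knownVars d) g) :
    IsGood C T (IsKnownProduct T) d (sumForms g) := by
  have hk : (d : k) ≠ 0 := Nat.cast_ne_zero.2 (by omega)
  have hp := isNonsingularForm_pow' (k := k) hd hk
  have hF : HasFermatCurve' C T (IsKnownProduct T) d := by
    intro τ hτ f hf h1
    exact isBuiltFrom_self (.fermat d f hd hf h1)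
  refine isGood_sumForms' hd hk (fun Y Z hY hZ => .prod Y Z hY hZ) hT hF hg.finite
    hg.nonempty g fun l => ?_
  have := hg.finite l
  have h1 := hg.le l
  have hf := hg.form l
  unfold knownVars at h1
  refine ⟨hf, fun h3 => ?_, fun h2 => ?_⟩
  · split_ifs at h1 with h6 h7
    · exact isBuiltFrom_self (.hypersurface d _ hd (by omega) hf (by omega))
    · exact isBuiltFrom_self (.hypersurface d _ hd (by omega) hf (by omega))
    · omega
  · have hc : Nat.card (σ l ⊕ Unit) = Nat.card (σ l) + 1 := card_sum_unit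
    split_ifs at h1 with h6 h7
    · subst h6
      rcases (show Nat.card (σ l) ≤ 3 ∨ Nat.card (σ l) = 4 by omega) with h8 | h8
      · exact isBuiltFrom_self (.hypersurface 3 _ hd (by norm_num) (hf.sumForm hp) (by omega))
      · exact isBuiltFrom_self (.threefold _ hf h8)
    · exact isBuiltFrom_self (.hypersurface d _ hd (by omega) (hf.sumForm hp) (by omega))
    · omega

theorem IsKnownSum.isBuiltFrom (hT : ∀ d : ℕ, 2 ≤ d → IsKatsuraShioda C T d) {X : 𝒱.Obj}
    (hX : IsKnownSum C T X) : IsBuiltFrom C (IsKnownProduct T) X := by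
  induction hX with
  | @hypersurface d r σ g hd hg => exact (isGood_known hd (hT d hd) g hg).base hg.three
  | known X h => exact h
  | prod X Y _ _ hX hY => exact hX.prod hY fun Y Z hY hZ => .prod Y Z hY hZ

end motives

variable {F : Type u} [Field F] {𝒱 : VarClass (AlgebraicClosure F)}
  {C : TheoryData.{u, v, 0} 𝒱 ℚ} {p : ℕ} [Fact p.Prime] {H : WeilTheoryData.{u, v, 0} C ℚ_[p]}
  {A : GaloisActions F H} {S : HodgeImages H}

lemma isCombination_iff {X : 𝒱.Obj} {P : H.A X → Prop} {γ : H.A X} : IsCombination P γ ↔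
    γ ∈ Submodule.span ℚ_[p] {δ | P δ} := by
  constructor
  · intro h
    induction h with
    | zero => exact Submodule.zero_mem _
    | add c δ γ hδ _ h =>
      exact Submodule.add_mem _ (Submodule.smul_mem _ _ (Submodule.subset_span hδ)) h
  · intro h
    induction h using Submodule.closure_induction with
    | zero => exact .zero
    | add x y _ _ hx hy =>
      clear * - hx hy
      induction hx with
      | zero => rwa [zero_add]
      | add c δ γ hδ _ h =>
        rw [add_assoc]
        exact .add c δ _ hδ h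
    | smul_mem c x hx =>
      rw [← add_zero (c • x)]
      exact .add c x _ hx .zero

/-- If `P` holds for the images under `b` of the classes with the property `Q`, the image under `b` of
a combination of classes with the property `Q` is a combination of classes with the property `P`. -/
lemma IsCombination.star {X Y : 𝒱.Obj} {P : H.A X → Prop} {Q : H.A Y → Prop}
    {b : C.A (Y.prod X)} (h : ∀ δ, Q δ → P (star H b δ)) {γ : H.A Y} (hγ : IsCombination Q γ) :
    IsCombination P (star H b γ) := by
  rw [isCombination_iff] at hγ ⊢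
  have h5 : Submodule.span ℚ_[p] {δ : H.A Y | Q δ} ≤
      (Submodule.span ℚ_[p] {δ : H.A X | P δ}).comap (H.actL (H.cl b)) :=
    Submodule.span_le.2 fun δ hδ => Submodule.subset_span (h δ hδ)
  exact h5 hγ

/-- If `X` is built from the varieties `Y` with the property `G`, and correspondences `a` from `X`
to `Y` map `γ` to a combination of classes with a property which is mapped by the correspondences
`b` from `Y` to `X` to the property `P`, then `γ` is a combination of classes with the property
`P`. -/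
lemma isCombination_of_isBuiltFrom [hC : IsChowProj C] [hH : IsWeilProj H]
    {G : 𝒱.Obj → Prop} {X : 𝒱.Obj} (hX : IsBuiltFrom C G X) {P : H.A X → Prop} {γ : H.A X}
    (key : ∀ (Y : 𝒱.Obj) (n : ℤ) (a : C.A (X.prod Y)) (b : C.A (Y.prod X)), G Y →
      C.Deg ((X.dim : ℤ) - n) a → C.Deg ((Y.dim : ℤ) + n) b →
        IsCombination P (star H b (star H a γ))) : IsCombination P γ := by
  have h3 : ∀ ε ∈ Submodule.span ℚ {z | ∃ (Y : 𝒱.Obj) (n : ℤ) (a : C.A (X.prod Y))
      (b : C.A (Y.prod X)), G Y ∧ C.Deg ((X.dim : ℤ) - n) a ∧ C.Deg ((Y.dim : ℤ) + n) b ∧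
        z = C.comp a b}, H.act (H.cl ε) γ ∈ Submodule.span ℚ_[p] {δ : H.A X | P δ} := by
    intro ε hε
    refine Submodule.span_induction (p := fun ε _ => H.act (H.cl ε) γ ∈
      Submodule.span ℚ_[p] {δ : H.A X | P δ}) ?_ ?_ ?_ ?_ hε
    · rintro z ⟨Y, n, a, b, hY, ha, hb, rfl⟩
      rw [actH_comp]
      exact isCombination_iff.1 (key Y n a b hY ha hb)
    · rw [actH_zero]
      exact Submodule.zero_mem _
    · intro x y _ _ hx hy
      rw [map_add, H.act_add]
      exact Submodule.add_mem _ hx hy
    · intro q x _ hx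
      have h1 : H.act (H.cl (q • x)) γ = (q : ℚ_[p]) • H.act (H.cl x) γ := by
        rw [cl_smul_rat']
        exact LinearMap.map_smul₂ (actB H.toTheoryData) (q : ℚ_[p]) (H.cl x) γ
      rw [h1]
      exact Submodule.smul_mem _ _ hx
  have h4 := h3 _ hX
  change H.act (H.cl (dg C X)) γ ∈ _ at h4
  rw [show H.act (H.cl (dg C X)) γ = γ from actH_dg H γ] at h4
  exact isCombination_iff.2 h4

/-- If `X` is built from varieties which satisfy the Mumford–Tate conjecture, then so does `X`. -/
theorem MumfordTate.of_isBuiltFrom [hC : IsChowProj C] [hH : IsWeilProj H]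
    (hA : RespectsTateClasses A) (hS : S.IsHodgeTheory) {G : 𝒱.Obj → Prop}
    (hG : ∀ Y, G Y → MumfordTate A S Y) {X : 𝒱.Obj} (hX : IsBuiltFrom C G X) :
    MumfordTate A S X := by
  intro m j γ
  have hHodge : ∀ (Y : 𝒱.Obj) (n : ℤ) (a : C.A (X.prod Y)), C.Deg ((X.dim : ℤ) - n) a →
      ∀ δ, S.IsHodge j δ → S.IsHodge (j - n) (SF.star H a δ) := by
    intro Y n a ha δ hδ
    rw [sub_eq_add_neg] at ha
    rw [sub_eq_add_neg]
    exact hS ha hδ
  have hHodge' : ∀ (Y : 𝒱.Obj) (n : ℤ) (b : C.A (Y.prod X)), C.Deg ((Y.dim : ℤ) + n) b →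
      ∀ δ, S.IsHodge (j - n) δ → S.IsHodge j (SF.star H b δ) := by
    intro Y n b hb δ hδ
    have h1 := hS hb hδ
    rwa [sub_add_cancel] at h1
  constructor
  · intro hγ
    refine isCombination_of_isBuiltFrom hX fun Y n a b hY ha hb => ?_
    obtain ⟨m'⟩ := hA.exists_model Y
    refine ((hG Y hY m' (j - n) _).1 (hγ.star (hHodge Y n a ha))).star fun δ hδ => ?_
    have h1 := hA.act m' m hb hδ
    rwa [sub_add_cancel] at h1
  · intro hγ
    refine isCombination_of_isBuiltFrom hX fun Y n a b hY ha hb => ?_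
    obtain ⟨m'⟩ := hA.exists_model Y
    refine ((hG Y hY m' (j - n) _).2 (hγ.star fun δ hδ => ?_)).star (hHodge' Y n b hb)
    rw [sub_eq_add_neg] at ha
    rw [sub_eq_add_neg]
    exact hA.act m m' ha hδ

end Pool.Agent.U926.SF
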