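import Pool.Agent.U926.SF.Galois

/-!
# The Mumford–Tate conjecture: definitions
-/

universe u v

namespace Pool.Agent.U926.SF

open Pool.Agent.H914 Pool.Agent.H914.VarClass.Obj Pool.Agent.W492.BB Pool.Agent.U926.HC

variable {k : Type u} [Field k] {𝒱 : VarClass k} {C : TheoryData.{u, v, 0} 𝒱 ℚ} {p : ℕ}
  [Fact p.Prime] {H : WeilTheoryData.{u, v, 0} C ℚ_[p]}

/-- The images of the Hodge classes in the `p`-adic cohomology, for an embedding of `k` into the
complex numbers (by Artin's comparison isomorphism): `S.IsHodge j γ` means that the class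
`γ ∈ H^(2 j)(X, ℚ_p(j))` is the image of a Hodge class in `H^(2 j)(X(ℂ), ℚ)(j)`. -/
structure HodgeImages (H : WeilTheoryData.{u, v, 0} C ℚ_[p]) where
  IsHodge : ∀ {X : 𝒱.Obj}, ℤ → H.A X → Prop

/-- The formal property of the Hodge classes which is used: correspondences map Hodge classes to Hodge
classes. -/
def HodgeImages.IsHodgeTheory (S : HodgeImages H) : Prop :=
  ∀ {X Y : 𝒱.Obj} {r j : ℤ} {z : C.A (X.prod Y)} {γ : H.A X}, C.Deg (X.dim + r) z →
    S.IsHodge j γ → S.IsHodge (j + r) (H.act (H.cl z) γ)

/-- The `ℚ_p`-linear combinations of the classes with the property `P`. -/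
inductive IsCombination {X : 𝒱.Obj} (P : H.A X → Prop) : H.A X → Prop
  | zero : IsCombination P 0
  | add (c : ℚ_[p]) (δ γ : H.A X) : P δ → IsCombination P γ → IsCombination P (c • δ + γ)

/-- The class `γ ∈ H^(2 j)(X, ℚ_p(j))` is a Tate class: for the model `m` it is invariant under the
Galois group of some finite extension `L` (as a class in `H^(2 j)(X, ℚ_p)`, the Galois group acts on it
by the power `-j` of the cyclotomic character). -/
def IsTate {F : Type u} [Field F] {𝒱 : VarClass (AlgebraicClosure F)}
    {C : TheoryData.{u, v, 0} 𝒱 ℚ} {H : WeilTheoryData.{u, v, 0} C ℚ_[p]}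
    (A : GaloisActions F H) {X : 𝒱.Obj} (m : Model F X.V) (j : ℤ) (γ : H.A X) : Prop :=
  H.Deg (2 * j) γ ∧ ∃ L : Ext F, IsFinite L ∧ m.L ≤ L ∧ ∀ g ∈ gal L, A.act m g γ = A.twist j g γ

/-- The formal properties of the Tate classes which are used: every variety has a model over a finite
extension of `F`, and correspondences (which are defined over finite extensions, so that their
action commutes with the Galois group of some finite extension) map Tate classes to Tate classes. -/
structure RespectsTateClasses {F : Type u} [Field F] {𝒱 : VarClass (AlgebraicClosure F)}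
    {C : TheoryData.{u, v, 0} 𝒱 ℚ} {H : WeilTheoryData.{u, v, 0} C ℚ_[p]}
    (A : GaloisActions F H) : Prop where
  exists_model : ∀ X : 𝒱.Obj, Nonempty (Model F X.V)
  act : ∀ {X Y : 𝒱.Obj} (m : Model F X.V) (m' : Model F Y.V) {r j : ℤ} {z : C.A (X.prod Y)}
    {γ : H.A X}, C.Deg (X.dim + r) z → IsTate A m j γ → IsTate A m' (j + r) (H.act (H.cl z) γ)

/-- The Mumford–Tate conjecture (comparison of Hodge classes and Tate classes) for all models of `X`
over finite extensions of `F`: in `H^(2 j)(X, ℚ_p(j))` the subspace generated by the Hodge classes is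
the subspace generated by the Tate classes, which are invariant under the Galois group of some finite
extension. -/
def MumfordTate {F : Type u} [Field F] {𝒱 : VarClass (AlgebraicClosure F)}
    {C : TheoryData.{u, v, 0} 𝒱 ℚ} {H : WeilTheoryData.{u, v, 0} C ℚ_[p]}
    (A : GaloisActions F H) (S : HodgeImages H) (X : 𝒱.Obj) : Prop :=
  ∀ (m : Model F X.V) (j : ℤ) (γ : H.A X),
    IsCombination (S.IsHodge j) γ ↔ IsCombination (IsTate A m j) γ

/-- Products of varieties for which the Mumford–Tate conjecture is known: abelian varieties of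
dimension at most three, smooth plane curves and smooth surfaces in the projective space of degree at
most four (quadrics, cubic surfaces, K3 surfaces), Fermat curves `c x ^ d + y ^ d + z ^ d = 0`, cyclic
cubic threefolds `f(x_0, …, x_3) + z ^ 3 = 0`. -/
inductive IsKnownProduct (T : Hypersurfaces 𝒱) : 𝒱.Obj → Prop
  | abelian (X : 𝒱.Obj) : IsAbelianVariety X → X.dim ≤ 3 → IsKnownProduct T X
  | hypersurface (d : ℕ) {σ : Type} [Finite σ] (f : MvPolynomial σ k) : 2 ≤ d → d ≤ 4 →
      IsNonsingularForm d f → Nat.card σ = 3 ∨ Nat.card σ = 4 → IsKnownProduct T (T.V f)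
  | fermat (d : ℕ) {σ : Type} [Finite σ] (g : MvPolynomial σ k) : 2 ≤ d →
      IsNonsingularForm d g → Nat.card σ = 1 → IsKnownProduct T (T.V (addPow d (addPow d g)))
  | threefold {σ : Type} [Finite σ] (f : MvPolynomial σ k) : IsNonsingularForm 3 f →
      Nat.card σ = 4 → IsKnownProduct T (T.V (addPow 3 f))
  | prod (X Y : 𝒱.Obj) : IsKnownProduct T X → IsKnownProduct T Y → IsKnownProduct T (X.prod Y)

/-- The bound for the number of the variables of the forms `g_l` of degree `d`: four for cubic forms,
three for quartic forms, one for forms of all other degrees. -/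
def knownVars (d : ℕ) : ℕ := if d = 3 then 4 else if d = 4 then 3 else 1

/-- The varieties of the theorem:

* the hypersurfaces `g_0(x^(0)) + ⋯ + g_r(x^(r)) = 0` (any `r`), where the `g_l` are nonsingular forms of
  the same degree `d ≥ 2` in separate sets of variables: cubic forms in at most four variables,
  quartic forms in at most three variables, or forms of any degree in one variable;
* all varieties which are built from products of varieties of the known types;
* all products of such varieties. -/
inductive IsKnownSum (C : TheoryData.{u, v, 0} 𝒱 ℚ) (T : Hypersurfaces 𝒱) : 𝒱.Obj → Prop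
  | hypersurface (d : ℕ) {r : ℕ} {σ : Fin (r + 1) → Type} (g : ∀ l, MvPolynomial (σ l) k) :
      2 ≤ d → HasBlocks d (knownVars d) g → IsKnownSum C T (T.V (sumForms g))
  | known (X : 𝒱.Obj) : IsBuiltFrom C (IsKnownProduct T) X → IsKnownSum C T X
  | prod (X Y : 𝒱.Obj) : IsKnownSum C T X → IsKnownSum C T Y → IsKnownSum C T (X.prod Y)

end Pool.Agent.U926.SF
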