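import Pool.Agent.U926.SF.MurDefs
import Pool.Agent.U926.SF.Cur
import Pool.Agent.U926.HC.Fermat
import Pool.Agent.TH133.Murre

/-!
# Murre's conjecture (B) for hypersurfaces `g_0 + ⋯ + g_r = 0`
-/

set_option autoImplicit false

open CategoryTheory AlgebraicGeometry MvPolynomial

universe u v w

namespace Pool.Agent.U926.SF

open Pool.Agent.H914 Pool.Agent.H914.VarClass Pool.Agent.H914.VarClass.Obj Pool.Agent.W492.BB
  Pool.Agent.W550.Corr Pool.Agent.TH133 Pool.Agent.U926.HC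

variable {k : Type u} [Field k] {𝒱 : VarClass k} {C : TheoryData.{u, v, 0} 𝒱 ℚ} {K : Type w}
  [Field K]

/-- Self-correspondences which act as zero on the cohomology act nilpotently on the Chow groups. -/
def ActsNilpotently (H : WeilTheoryData.{u, v, w} C K) (X : 𝒱.Obj) : Prop :=
  ∀ γ : C.A (X.prod X), C.Deg X.dim γ →
    (∀ l, Kills H γ l) → ∃ N : ℕ, ∀ x : C.A X, (C.act γ)^[N] x = 0

lemma iterate_fix {X : 𝒱.Obj} {γ : C.A (X.prod X)} {y : C.A X} (h : C.act γ y = y) (N : ℕ) :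
    (C.act γ)^[N] y = y := by
  induction N with
  | zero => rfl
  | succ N ih =>
    rw [Function.iterate_succ_apply]
    rw [h, ih]

variable [hC : IsChowProj C] {X Y : 𝒱.Obj} {H : WeilTheoryData.{u, v, w} C K}
  [hH : IsWeilProj H]

include hC hH

lemma actH_ext_zero {v : C.A X} {i : ℤ} (hv : v ∈ C.gr X i) (α : C.A Y) {l : ℤ} {a : H.A X}
    (ha : a ∈ H.gr X l) (hi : 2 * i + l ≠ 2 * X.dim) : H.act (H.cl (C.ext v α)) a = 0 := by
  have h0 : H.cl v * a ∈ H.gr X (2 * i + l) := H.mul_mem (H.cl_mem hv) ha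
  have h1 : H.push (snd X Y) (H.pull (fst X Y) (H.cl v * a)) = 0 := by
    rcases lt_or_gt_of_ne hi with h | h
    · have h2 := H.push_mem (snd X Y) (H.pull_mem (fst X Y) h0)
      rw [H.gr_neg Y _ (by rw [dim_prod]; push_cast; omega)] at h2
      exact (Submodule.mem_bot _).1 h2
    · rw [TH133.gr_top H h] at h0
      rw [(Submodule.mem_bot _).1 h0, map_zero, map_zero]
  have h2 : H.cl (C.ext v α) * H.pull (fst X Y) a =
      H.pull (fst X Y) (H.cl v * a) * H.pull (snd X Y) (H.cl α) := by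
    rw [TheoryData.ext, map_mul, H.cl_pull, H.cl_pull, mul_assoc, map_mul, mul_assoc]
    congr 1
    rw [← H.cl_pull, H.cl_central]
  rw [TheoryData.act_apply, h2, H.proj_right, h1, zero_mul]

section main

variable {T : HypersurfaceData C} {d : ℕ} {ρ : Type} {F : MvPolynomial ρ k}

/-- The projector to the class `h ^ m`. -/
noncomputable def lineProj (C : TheoryData.{u, v, 0} 𝒱 ℚ) {X : 𝒱.Obj} (d : ℕ) (h : C.A X) (m : ℕ) :
    C.A (X.prod X) :=
  C.ext (h ^ (X.dim - m)) ((d : ℚ)⁻¹ • h ^ m)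

omit hC hH in
lemma lineProj_def (h : C.A X) (m : ℕ) :
    lineProj C d h m = C.ext (h ^ (X.dim - m)) ((d : ℚ)⁻¹ • h ^ m) := rfl

omit hH in
lemma lineProj_mem {h : C.A X} (hh : h ∈ C.gr X 1) {m : ℕ} (hm : m ≤ X.dim) :
    lineProj C d h m ∈ C.gr (X.prod X) X.dim := by
  have h1 := ext_mem' (pow_gr hh (X.dim - m)) (Submodule.smul_mem _ (d : ℚ)⁻¹ (pow_gr hh m))
  have e1 : ((X.dim - m : ℕ) : ℤ) + (m : ℕ) = X.dim := by omega
  rwa [e1] at h1

lemma lineProj_pow (hd : d ≠ 0) (hE : IsEmbedded T d F) {m : ℕ} (hm : m ≤ (T.V F).dim) :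
    C.act (lineProj C d (T.h F) m) (T.h F ^ m) = T.h F ^ m := by
  rw [lineProj_def, act_ext' (q := d), smul_smul, mul_inv_cancel₀ (Nat.cast_ne_zero.2 hd), one_smul]
  rw [← pow_add, Nat.sub_add_cancel hm]
  exact hasDegree_top (H := H) hE

omit hH in
lemma lineProj_zero {h : C.A X} (hh : h ∈ C.gr X 1) {m : ℕ} (hm : m ≤ X.dim) {j : ℕ} (hj : j ≠ m)
    {y : C.A X} (hy : y ∈ C.gr X j) : C.act (lineProj C d h m) y = 0 := by
  have h2 : h ^ (X.dim - m) * y ∈ C.gr X (((X.dim - m : ℕ) : ℤ) + j) :=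
    C.mul_mem (pow_gr hh _) hy
  exact act_ext_zero_of_lt h2 (by omega)

lemma even_fix (hn : ActsNilpotently H (T.V F)) (hd : d ≠ 0) (hE : IsEmbedded T d F)
    (hL : HasLefschetz H T F) {π : ℕ → C.A ((T.V F).prod (T.V F))} (hπ : IsCK H (T.V F) π) {m : ℕ}
    (hm : m ≤ (T.V F).dim) (hm2 : 2 * m ≠ (T.V F).dim) {y : C.A (T.V F)}
    (h1 : C.act (π (2 * m)) y = y) (h2 : C.act (lineProj C d (T.h F) m) y = 0) : y = 0 := by
  have hh := hE.h_deg
  obtain ⟨N, hN⟩ := hn (π (2 * m) - lineProj C d (T.h F) m)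
    (Submodule.sub_mem _ (hπ.deg _) (lineProj_mem hh hm)) (fun l a ha => by
      have e1 : H.act (H.cl (π (2 * m) - lineProj C d (T.h F) m)) a =
          H.act (H.cl (π (2 * m))) a - H.act (H.cl (lineProj C d (T.h F) m)) a := by
        rw [map_sub, H.act_sub]
      rw [e1, hπ.actH_eq (2 * m) l ha]
      split_ifs with h3
      · rcases hL l a ha (by rw [h3]; exact_mod_cast hm2) with rfl | ⟨i, κ, h4, rfl⟩
        · rw [show H.act (H.cl (lineProj C d (T.h F) m)) 0 = 0 from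
            map_zero (H.actL (H.cl (lineProj C d (T.h F) m))), sub_zero]
        · have h5 : i = m := by
            rw [h3] at h4
            push_cast at h4
            omega
          subst h5
          rw [show pw C (T.h F) i = T.h F ^ i from rfl]
          have h6 : H.act (H.cl (lineProj C d (T.h F) i)) (κ • H.cl (T.h F ^ i)) =
              κ • H.act (H.cl (lineProj C d (T.h F) i)) (H.cl (T.h F ^ i)) :=
            map_smul (H.actL (H.cl (lineProj C d (T.h F) i))) κ _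
          rw [h6, ← cl_act, lineProj_pow (H := H) hd hE hm, sub_self]
      · rw [lineProj_def, actH_ext_zero (pow_gr hh _) _ ha, sub_zero]
        intro h4
        apply h3
        push_cast
        omega)
  have hfix : C.act (π (2 * m) - lineProj C d (T.h F) m) y = y := by
    rw [C.act_sub, h1, h2, sub_zero]
  rw [← iterate_fix hfix N]
  exact hN _

/-- The projectors `π_i`, `i ≠ dim X`, act as zero on `CH^j(X)` for `i ≠ 2 j`. -/
lemma ck_act_zero (hn : ActsNilpotently H (T.V F)) (hd : d ≠ 0) (hE : IsEmbedded T d F)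
    (hL : HasLefschetz H T F) {π : ℕ → C.A ((T.V F).prod (T.V F))} (hπ : IsCK H (T.V F) π) {i : ℕ}
    (hi : i ≠ (T.V F).dim) {j : ℕ} (hj : i ≠ 2 * j) {x : C.A (T.V F)}
    (hx : x ∈ C.gr (T.V F) j) : C.act (π i) x = 0 := by
  have hidem : ∀ i, C.act (π i) (C.act (π i) x) = C.act (π i) x := fun i => by
    rw [← C.act_comp, hπ.idem]
  rcases Nat.even_or_odd' i with ⟨m, rfl | rfl⟩
  · rcases lt_or_ge (T.V F).dim m with h1 | h1
    · rw [hπ.out _ (by omega)]
      exact C.act_zero x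
    · exact even_fix hn hd hE hL hπ h1 hi (hidem _)
        (lineProj_zero hE.h_deg h1 (j := j) (by omega) (act_mem0 C (hπ.deg _) hx))
  · obtain ⟨N, hN⟩ := hn (π (2 * m + 1)) (hπ.deg _) (fun l a ha => by
      rw [hπ.actH_eq (2 * m + 1) l ha]
      split_ifs with h3
      · rcases hL l a ha (by rw [h3]; exact_mod_cast hi) with rfl | ⟨i, κ, h4, -⟩
        · rfl
        · rw [h3] at h4
          push_cast at h4
          omega
      · rfl)
    rw [← iterate_fix (hidem (2 * m + 1)) N]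
    exact hN _

/-- The middle projector acts as zero on `CH^j(X) = ℚ h ^ j`, `2 j ≠ dim X`. -/
lemma ck_mid_zero (hd : d ≠ 0) (hE : IsEmbedded T d F)
    {π : ℕ → C.A ((T.V F).prod (T.V F))} (hπ : IsCK H (T.V F) π) {j : ℕ}
    (hj : 2 * j < (T.V F).dim) (hg : IsGenerated T F j) {x : C.A (T.V F)}
    (hx : x ∈ C.gr (T.V F) j) : C.act (π (T.V F).dim) x = 0 := by
  have hh := hE.h_deg
  have hy : C.act (π (T.V F).dim) x ∈ C.gr (T.V F) j := act_mem0 C (hπ.deg _) hx
  have hcl : H.cl (C.act (π (T.V F).dim) x) = 0 := by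
    rw [cl_act, hπ.actH_eq _ _ (H.cl_mem hx), if_neg (by omega)]
  generalize C.act (π (T.V F).dim) x = y at hy hcl
  obtain ⟨q, rfl⟩ := hg y hy
  rw [show pw C (T.h F) j = T.h F ^ j from rfl] at *
  have h1 : T.h F ^ ((T.V F).dim - j) * (q • T.h F ^ j) ∈ C.gr (T.V F) (T.V F).dim := by
    have h2 : T.h F ^ ((T.V F).dim - j) * (q • T.h F ^ j) ∈
        C.gr (T.V F) ((((T.V F).dim - j : ℕ) : ℤ) + j) := C.mul_mem (pow_gr hh _) hy
    have e1 : (((T.V F).dim - j : ℕ) : ℤ) + j = (T.V F).dim := by omega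
    rwa [e1] at h2
  have h2 : HasDegree C (T.h F ^ ((T.V F).dim - j) * (q • T.h F ^ j)) 0 :=
    TH133.hasDegree_zero_of_cl H h1 (by rw [map_mul, hcl, mul_zero])
  have h3 : C.act (lineProj C d (T.h F) j) (q • T.h F ^ j) = 0 := by
    rw [lineProj_def, act_ext' h2, zero_smul]
  rwa [act_map_smul, lineProj_pow (H := H) hd hE (by omega)] at h3

omit hH in
lemma sum_act {π : ℕ → C.A (X.prod X)} (h : ∑ i ∈ Finset.range (2 * X.dim + 1), π i = dg C X)
    (x : C.A X) : ∑ i ∈ Finset.range (2 * X.dim + 1), C.act (π i) x = x := by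
  rw [← act_sum, h, act_dg]

/-- **Murre's conjecture (B) for hypersurfaces** with nilpotence. -/
theorem murre_of_nil (hn : ActsNilpotently H (T.V F)) (hd : d ≠ 0) (hE : IsEmbedded T d F)
    (hL : HasLefschetz H T F) {π : ℕ → C.A ((T.V F).prod (T.V F))} (hπ : IsCK H (T.V F) π) :
    (∀ j : ℕ, ckFil C π j (j + 1) = ⊥) ∧
    (∀ j : ℕ, (T.V F).dim ≤ 2 * j → ckFil C π j 0 = C.gr (T.V F) j) ∧
    ∀ j : ℕ, 2 * j < (T.V F).dim → (ckFil C π j 0 = C.gr (T.V F) j ↔ IsGenerated T F j) := by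
  have hh := hE.h_deg
  refine ⟨fun j => ?_, fun j hj => ?_, fun j hj => ⟨fun h => ?_, fun h => ?_⟩⟩
  · rw [eq_bot_iff]
    intro x hx
    rw [hπ.mem_ckFil] at hx
    rw [Submodule.mem_bot]
    rcases lt_or_ge (T.V F).dim j with h1 | h1
    · exact hC.gr_top _ _ _ hx.1 (by exact_mod_cast h1)
    · rw [← sum_act hπ.sum x]
      refine Finset.sum_eq_zero fun i _ => ?_
      rcases le_or_gt j i with h2 | h2
      · exact hx.2 i (by omega)
      · exact ck_act_zero hn hd hE hL hπ (by omega) (by omega) hx.1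
  · ext x
    rw [hπ.mem_ckFil]
    exact ⟨fun h => h.1, fun hx => ⟨hx, fun i hi =>
      ck_act_zero hn hd hE hL hπ (by omega) (by omega) hx⟩⟩
  · have hfix : ∀ x ∈ C.gr (T.V F) (j : ℤ), C.act (π (2 * j)) x = x := by
      intro x hx
      have h1 := hx
      rw [← h, hπ.mem_ckFil] at h1
      conv_rhs => rw [← sum_act hπ.sum x]
      rw [Finset.sum_eq_single (2 * j)]
      · intro i _ hij
        rcases lt_or_gt_of_ne hij with h2 | h2
        · exact ck_act_zero hn hd hE hL hπ (by omega) hij hx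
        · exact h1.2 i (by omega)
      · intro h2
        exact absurd (Finset.mem_range.2 (by omega)) h2
    intro x hx
    have h1 : T.h F ^ ((T.V F).dim - j) * x ∈ C.gr (T.V F) (T.V F).dim := by
      have h2 : T.h F ^ ((T.V F).dim - j) * x ∈
          C.gr (T.V F) ((((T.V F).dim - j : ℕ) : ℤ) + j) := C.mul_mem (pow_gr hh _) hx
      have e1 : (((T.V F).dim - j : ℕ) : ℤ) + j = (T.V F).dim := by omega
      rwa [e1] at h2
    obtain ⟨q, hq⟩ := exists_hasDegree h1
    have h2 : C.act (lineProj C d (T.h F) j) x = (q * (d : ℚ)⁻¹) • T.h F ^ j := by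
      rw [lineProj_def, act_ext' hq, smul_smul]
    have hs : ∀ (Γ : C.A ((T.V F).prod (T.V F))) (a b : C.A (T.V F)),
        C.act Γ (a - b) = C.act Γ a - C.act Γ b := fun Γ a b => map_sub (C.actL Γ) a b
    have h3 : x - (q * (d : ℚ)⁻¹) • T.h F ^ j = 0 := by
      refine even_fix hn hd hE hL hπ (by omega) (m := j) (by omega) ?_ ?_
      · rw [hs, act_map_smul, hfix _ hx, hfix _ (pow_gr hh j)]
      · rw [hs, act_map_smul, lineProj_pow (H := H) hd hE (by omega), h2, sub_self]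
    exact ⟨_, sub_eq_zero.1 h3⟩
  · ext x
    rw [hπ.mem_ckFil]
    refine ⟨fun h => h.1, fun hx => ⟨hx, fun i hi => ?_⟩⟩
    rcases eq_or_ne i (T.V F).dim with rfl | h2
    · exact ck_mid_zero hd hE hπ hj h hx
    · exact ck_act_zero hn hd hE hL hπ h2 (by omega) hx

/-- The filtration above the middle. -/
theorem ckFil_high (hn : ActsNilpotently H (T.V F)) (hd : d ≠ 0) (hE : IsEmbedded T d F)
    (hL : HasLefschetz H T F) {π : ℕ → C.A ((T.V F).prod (T.V F))} (hπ : IsCK H (T.V F) π)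
    {j ν : ℕ} (hj : (T.V F).dim < 2 * j) :
    (1 ≤ ν → ν + (T.V F).dim ≤ 2 * j →
      ∀ x, x ∈ ckFil C π j ν ↔ C.Deg j x ∧ H.cl x = 0) ∧
    (2 * j < ν + (T.V F).dim → ckFil C π j ν = ⊥) := by
  have hh := hE.h_deg
  refine ⟨fun h1 h2 x => ?_, fun h1 => ?_⟩
  · rw [hπ.mem_ckFil]
    refine ⟨fun h => ⟨h.1, ?_⟩, fun h => ⟨h.1, fun i hi => ?_⟩⟩
    · have h3 : H.act (H.cl (π (2 * j))) (H.cl x) = H.cl x := by
        rw [hπ.actH_eq _ _ (H.cl_mem h.1), if_pos (by push_cast; rfl)]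
      rw [← h3, ← cl_act, h.2 (2 * j) (by omega), map_zero]
    · obtain ⟨hx, hcl⟩ := h
      rcases eq_or_ne i (2 * j) with rfl | h3
      · rcases lt_or_ge (T.V F).dim j with h4 | h4
        · rw [hC.gr_top _ _ _ hx (by exact_mod_cast h4), C.act_map_zero]
        · have hidem : C.act (π (2 * j)) (C.act (π (2 * j)) x) = C.act (π (2 * j)) x := by
            rw [← C.act_comp, hπ.idem]
          have hy : C.act (π (2 * j)) x ∈ C.gr (T.V F) j := act_mem0 C (hπ.deg _) hx
          have hy0 : H.cl (C.act (π (2 * j)) x) = 0 := by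
            rw [cl_act, hcl]
            exact map_zero (H.actL (H.cl (π (2 * j))))
          refine even_fix hn hd hE hL hπ h4 (by omega) hidem ?_
          generalize C.act (π (2 * j)) x = y at hy hy0
          have h5 : T.h F ^ ((T.V F).dim - j) * y ∈ C.gr (T.V F) (T.V F).dim := by
            have h6 : T.h F ^ ((T.V F).dim - j) * y ∈
                C.gr (T.V F) ((((T.V F).dim - j : ℕ) : ℤ) + j) := C.mul_mem (pow_gr hh _) hy
            have e1 : (((T.V F).dim - j : ℕ) : ℤ) + j = (T.V F).dim := by omega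
            rwa [e1] at h6
          have h6 : HasDegree C (T.h F ^ ((T.V F).dim - j) * y) 0 :=
            TH133.hasDegree_zero_of_cl H h5 (by rw [map_mul, hy0, mul_zero])
          rw [lineProj_def, act_ext' h6, zero_smul]
      · exact ck_act_zero hn hd hE hL hπ (by omega) h3 hx
  · rw [eq_bot_iff]
    intro x hx
    rw [hπ.mem_ckFil] at hx
    rw [Submodule.mem_bot, ← sum_act hπ.sum x]
    refine Finset.sum_eq_zero fun i _ => ?_
    rcases le_or_gt (2 * j + 1 - ν) i with h2 | h2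
    · exact hx.2 i h2
    · exact ck_act_zero hn hd hE hL hπ (by omega) (by omega) hx.1

end main

lemma IsChowKunneth.isCK {π : ℕ → C.A (X.prod X)} (h : IsChowKunneth H X π) : IsCK H X π where
  deg := h.deg
  out := h.out
  idem i := by rw [h.idem, if_pos rfl]
  orth i j hij := by rw [h.idem, if_neg hij]
  sum := h.sum
  act_self i a ha := by rw [h.act i i a ha, if_pos rfl]
  act_ne i m a hm ha := by rw [h.act i m a ha, if_neg hm]

omit hH in
lemma inStep_iff {π : ℕ → C.A (X.prod X)} (j s : ℕ) (x : C.A X) :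
    InStep C π j s x ↔ x ∈ ckFil C π j s :=
  ⟨fun ⟨y, hy, h⟩ => ⟨y, hy, h.symm⟩, fun ⟨y, hy, h⟩ => ⟨y, hy, h.symm⟩⟩

omit hH in
lemma firstHalf_iff {π : ℕ → C.A (X.prod X)} (h : IsCK H X π) (j : ℕ) :
    FirstHalf C π j ↔ ckFil C π j 0 = C.gr X j := by
  constructor
  · intro h1
    ext x
    refine ⟨fun hx => ?_, fun hx => (inStep_iff j 0 x).1 (h1 x hx)⟩
    obtain ⟨y, hy, rfl⟩ := hx
    rw [TheoryData.actL_apply, act_sum]
    exact Submodule.sum_mem _ fun j _ => act_mem0 C (h.deg j) hy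
  · intro h1 x hx
    rw [inStep_iff, h1]
    exact hx

section sums

variable [CharZero k] {T : HypersurfaceData C}

/-- **Murre's conjecture (B)** for the hypersurfaces `g_0 + ⋯ + g_r = 0`. -/
theorem murre_sumForms
    (hT : ∀ d : ℕ, 2 ≤ d → IsKatsuraShioda C (hyp T) d)
    (hP : ∀ d : ℕ, 2 ≤ d → IsProjectiveTheory H T d) (hK : CubicsHaveCurveMotives C (hyp T))
    (hK' : CyclicFourfoldsHaveCurveMotives C (hyp T)) (hN : KimuraNilpotence H)
    (hD : ∀ d : ℕ, 2 ≤ d → DivisorTheorem T d) {d : ℕ}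
    (hd : 2 ≤ d) {r : ℕ} {σ : Fin (r + 1) → Type} (g : ∀ l, MvPolynomial (σ l) k)
    (hg : HasBlocks d (blockVars d) g)
    (π : ℕ → C.A ((T.V (sumForms g)).prod (T.V (sumForms g))))
    (hπ' : IsChowKunneth H (T.V (sumForms g)) π) (j : ℕ) :
    SecondHalf C π j ∧ ((T.V (sumForms g)).dim ≤ 2 * j → FirstHalf C π j) ∧
    ((T.V (sumForms g)).dim < 2 * j → HasTwoSteps H π j) ∧
    (2 * j < (T.V (sumForms g)).dim → (FirstHalf C π j ↔ IsGenerated T (sumForms g) j)) ∧
    (j ≤ 1 ∨ (T.V (sumForms g)).dim ≤ 4 → FirstHalf C π j) := by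
  have hπ := hπ'.isCK
  have := hg.finite
  have h1 : ActsNilpotently H (T.V (sumForms g)) :=
    hN _ (isBuiltFrom_curves_sumForms hd (hT d hd) hK hK' g hg)
  have hf := (isGood_curves hd (hT d hd) hK hK' g hg).form
  have hE := (hP d hd).emb (sumForms g) hf hg.three
  have hL := (hP d hd).lefschetz _ hf hg.three
  have hdim : (T.V (sumForms g)).dim + 2 = Nat.card (Σ l, σ l) := hE.dim
  obtain ⟨h2, h3, h4⟩ := murre_of_nil h1 (by omega) hE hL hπ
  refine ⟨fun x hx => ?_, fun h5 => (firstHalf_iff hπ j).2 (h3 j h5), fun h5 s x hs => ?_,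
    fun h5 => ?_, fun hj => ?_⟩
  · rw [inStep_iff, h2 j] at hx
    exact (Submodule.mem_bot _).1 hx
  · rw [inStep_iff]
    obtain ⟨h6, h7⟩ := ckFil_high h1 (by omega) hE hL hπ (ν := s) h5
    split_ifs with h8
    · exact h6 hs h8 x
    · rw [h7 (by omega), Submodule.mem_bot]
      refine ⟨?_, fun h => h.2⟩
      rintro rfl
      exact ⟨Submodule.zero_mem _, rfl⟩
  · rw [firstHalf_iff hπ]
    exact h4 j h5
  · rw [firstHalf_iff hπ]
    rcases Nat.lt_or_ge (2 * j) (T.V (sumForms g)).dim with h5 | h5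
    · refine (h4 j h5).2 ?_
      have h6 : j = 0 ∨ j = 1 := by omega
      rcases h6 with rfl | rfl
      · intro z hz
        obtain ⟨q, rfl⟩ := hC.gr_zero _ z hz
        exact ⟨q, by rw [show pw C (T.h (sumForms g)) 0 = T.h (sumForms g) ^ 0 from rfl, pow_zero]⟩
      · exact hD d hd (sumForms g) hf (by omega)
    · exact h3 j h5

end sums

end Pool.Agent.U926.SF
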