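import Pool.Agent.U926.SF.VoDefs

/-!
# Murre's conjecture (B) for hypersurfaces `g_0 + ⋯ + g_r = 0`: definitions
-/

universe u v w

namespace Pool.Agent.U926.SF

open CategoryTheory Pool.Agent.H914 Pool.Agent.W492.BB Pool.Agent.U926.HC

variable {k : Type u} [Field k] {𝒱 : VarClass k} {C : TheoryData.{u, v, 0} 𝒱 ℚ} {K : Type w}
  [Field K]

/-- The correspondence `Γ` from `X` to `Y` acts as zero on `H^l(X)`. -/
def Kills (H : WeilTheoryData.{u, v, w} C K) {X Y : 𝒱.Obj} (Γ : C.A (X.prod Y)) (l : ℤ) : Prop :=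
  ∀ a : H.A X, H.Deg l a → H.act (H.cl Γ) a = 0

/-- **Kimura's nilpotence theorem.** Let `X` be built from products of curves; then the Chow motive of
`X` is finite-dimensional, so every self-correspondence `γ` of degree zero which acts as zero on the
cohomology `H(X)` (that is, which is homologically trivial) is nilpotent. In particular some iterate
of its action on the Chow groups `CH(X)` is zero. -/
def KimuraNilpotence (H : WeilTheoryData.{u, v, w} C K) : Prop :=
  ∀ X : 𝒱.Obj, IsBuiltFrom C IsCurveProduct X → ∀ γ : C.A (X.prod X), C.Deg X.dim γ →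
    (∀ l, Kills H γ l) → ∃ N : ℕ, ∀ x : C.A X, (C.act γ)^[N] x = 0

/-- The theorem of Lefschetz on divisors: `CH^1(X) ⊗ ℚ = ℚ h` for the nonsingular hypersurfaces `X` of
degree `d` and dimension at least three. -/
def DivisorTheorem (T : HypersurfaceData C) (d : ℕ) : Prop :=
  ∀ {σ : Type} [Finite σ] (f : MvPolynomial σ k), IsNonsingularForm d f → 5 ≤ Nat.card σ →
    IsGenerated T f 1

/-- A Chow-Kunneth decomposition of `X`: self-correspondences `π 0, …, π (2 dim X)` of degree zero
(`π i = 0` for `i > 2 dim X`) which are mutually orthogonal idempotents with sum the diagonal, and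
such that `π i` acts as the identity on `H^i(X)` and as zero on `H^m(X)` for `m ≠ i`. -/
structure IsChowKunneth (H : WeilTheoryData.{u, v, w} C K) (X : 𝒱.Obj)
    (π : ℕ → C.A (X.prod X)) : Prop where
  deg : ∀ i, C.Deg X.dim (π i)
  out : ∀ i, 2 * X.dim < i → π i = 0
  idem : ∀ i j, C.comp (π i) (π j) = if i = j then π i else 0
  sum : ∑ i ∈ Finset.range (2 * X.dim + 1), π i = C.graph (𝟙 X)
  act : ∀ (i : ℕ) (m : ℤ) (a : H.A X), H.Deg m a → H.act (H.cl (π i)) a = if m = i then a else 0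

/-- The class `x` lies in the step `F^s CH^j(X) = (π_{2j-s} + ⋯ + π_0)_* CH^j(X)` of the filtration
attached to the Chow-Kunneth decomposition `π` (zero if `s > 2 j`). -/
def InStep (C : TheoryData.{u, v, 0} 𝒱 ℚ) {X : 𝒱.Obj} (π : ℕ → C.A (X.prod X)) (j s : ℕ)
    (x : C.A X) : Prop :=
  ∃ y, C.Deg j y ∧ x = C.act (∑ i ∈ Finset.range (2 * j + 1 - s), π i) y

/-- The first half of Murre's conjecture (B) for `X`, the Chow-Kunneth decomposition `π` and the
codimension `j`: `F^0 CH^j(X) = CH^j(X)`. -/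
def FirstHalf (C : TheoryData.{u, v, 0} 𝒱 ℚ) {X : 𝒱.Obj} (π : ℕ → C.A (X.prod X)) (j : ℕ) : Prop :=
  ∀ x, C.Deg j x → InStep C π j 0 x

/-- The second half of Murre's conjecture (B) for `X`, the Chow-Kunneth decomposition `π` and the
codimension `j`: `F^(j+1) CH^j(X) = 0`. -/
def SecondHalf (C : TheoryData.{u, v, 0} 𝒱 ℚ) {X : 𝒱.Obj} (π : ℕ → C.A (X.prod X)) (j : ℕ) :
    Prop :=
  ∀ x, InStep C π j (j + 1) x → x = 0

/-- The filtration of the Chow-Kunneth decomposition `π` of `X`, `dim X = n`, in the codimension `j`, for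
`2 j > n`: the step `F^s CH^j(X)` is the group of homologically trivial cycles for
`1 ≤ s ≤ 2 j - n`, and zero for `s > 2 j - n`. -/
def HasTwoSteps (H : WeilTheoryData.{u, v, w} C K) {X : 𝒱.Obj} (π : ℕ → C.A (X.prod X)) (j : ℕ) :
    Prop :=
  ∀ (s : ℕ) (x : C.A X), 1 ≤ s →
    (InStep C π j s x ↔ C.Deg j x ∧ (if s + X.dim ≤ 2 * j then H.cl x = 0 else x = 0))

end Pool.Agent.U926.SF
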