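import Pool.Agent.U926.SF.RetDefs

/-!
# K-groups and Weil-etale cohomology of varieties over finite fields: definitions
-/

universe u v

namespace Pool.Agent.U926.SF

open Pool.Agent.H914 Pool.Agent.H914.VarClass.Obj Pool.Agent.W492.BB

variable {F : Type u} [Field F] {𝒱 : VarClass (AlgebraicClosure F)}

/-- The formal properties of the K-groups `G m n = K_n(X₀)` of the models `m` (the varieties `X₀`)
which are used: the correspondences act (`HasRetracts`; the index does not change). -/
structure IsKTheory (C : TheoryData.{u, v, 0} 𝒱 ℚ) (K : ModelGroups F 𝒱 ℕ) : Prop where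
  shift : ∀ (n : ℕ) (r : ℤ), K.shift n r = n
  retracts : HasRetracts C K

/-- **Parshin's conjecture** for all models `X₀` of `X` over finite extensions of `F`: the groups
`K_n(X₀)`, `n ≥ 1`, are torsion groups. -/
def Parshin (K : ModelGroups F 𝒱 ℕ) (X : 𝒱.Obj) : Prop :=
  ∀ (m : Model F X.V) (n : ℕ), 1 ≤ n → ∀ x : K.G m n, ∃ N : ℕ, 0 < N ∧ N • x = 0

/-- The formal properties of the Weil-etale cohomology groups `G m (i, n) = H^i_W(X₀, ℤ(n))` of the
models `m` (the varieties `X₀`; for `n < 0` the groups are zero) which are used: the correspondences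
act (`HasRetracts`), and the groups have finite `N`-torsion for all `N > 0` (since the etale
cohomology groups `H^i(X₀, ℤ/N(n))` are finite). -/
structure IsWeilEtaleTheory (C : TheoryData.{u, v, 0} 𝒱 ℚ) (W : ModelGroups F 𝒱 (ℤ × ℤ)) :
    Prop where
  shift : ∀ i n r : ℤ, W.shift (i, n) r = (i - 2 * r, n - r)
  retracts : HasRetracts C W
  torsion : ∀ (X : 𝒱.Obj) (m : Model F X.V) (i : ℤ × ℤ) (N : ℕ), 0 < N →
    {x : W.G m i | N • x = 0}.Finite

/-- **Lichtenbaum's conjecture** `L^n(X₀)` for all models `X₀` of `X` over finite extensions of `F`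
and all `n`: the groups `H^i_W(X₀, ℤ(n))` are finitely generated for all `i`. -/
def Lichtenbaum (W : ModelGroups F 𝒱 (ℤ × ℤ)) (X : 𝒱.Obj) : Prop :=
  ∀ (m : Model F X.V) (i n : ℤ), Module.Finite ℤ (W.G m (i, n))

end Pool.Agent.U926.SF
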