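import Pool.Agent.U926.SF.EllDefs

/-!
# The Grothendieck period conjecture for algebraic cycles: definitions
-/

set_option autoImplicit false

open CategoryTheory AlgebraicGeometry

universe u v

namespace Pool.Agent.U926.SF

open Pool.Agent.H914 Pool.Agent.H914.VarClass Pool.Agent.H914.VarClass.Obj Pool.Agent.W492.BB
  Pool.Agent.TH133

variable {k : Type u} [Field k] {𝒱 : VarClass k} {C : TheoryData.{u, v, 0} 𝒱 ℚ}

/-- The de Rham classes and the rational Betti classes in the cohomology `H(X)` of `X^an` with complex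
coefficients, for varieties `X` over the field `k` of algebraic numbers. -/
structure PeriodData (H : WeilTheoryData.{u, v, 0} C ℂ) where
  /-- `IsDeRham m γ`: the class `γ` lies in `H^m_dR(X / k)` -/
  IsDeRham : ∀ {X : 𝒱.Obj}, ℤ → H.A X → Prop
  /-- `IsBetti m j γ`: the class `γ` lies in `H^m(X^an, ℚ(j)) = (2 π i) ^ j H^m(X^an, ℚ)` -/
  IsBetti : ∀ {X : 𝒱.Obj}, ℤ → ℤ → H.A X → Prop

variable {H : WeilTheoryData.{u, v, 0} C ℂ}

/-- The formal properties of the de Rham classes: they form vector spaces over `ℚ` (even over `k`);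
products, pull-backs and push-forwards (for the de Rham orientations) of de Rham classes are de Rham
classes, and so are the (de Rham) classes of cycles. -/
structure PeriodData.DeRhamTheory (S : PeriodData H) : Prop where
  deg : ∀ {X : 𝒱.Obj} {m : ℤ} {γ : H.A X}, S.IsDeRham m γ → H.Deg m γ
  zero : ∀ {X : 𝒱.Obj} (m : ℤ), S.IsDeRham m (0 : H.A X)
  add : ∀ {X : 𝒱.Obj} {m : ℤ} {γ δ : H.A X}, S.IsDeRham m γ → S.IsDeRham m δ →
    S.IsDeRham m (γ + δ)
  smul : ∀ {X : 𝒱.Obj} {m : ℤ} (q : ℚ) {γ : H.A X}, S.IsDeRham m γ →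
    S.IsDeRham m ((q : ℂ) • γ)
  mul : ∀ {X : 𝒱.Obj} {m n : ℤ} {γ δ : H.A X}, S.IsDeRham m γ → S.IsDeRham n δ →
    S.IsDeRham (m + n) (H.mul γ δ)
  pull : ∀ {X Y : 𝒱.Obj} (f : X ⟶ Y) {m : ℤ} {γ : H.A Y}, S.IsDeRham m γ →
    S.IsDeRham m (H.up f γ)
  push : ∀ {X Y : 𝒱.Obj} (f : X ⟶ Y) {m : ℤ} {γ : H.A X}, S.IsDeRham m γ →
    S.IsDeRham (m + 2 * (Y.dim - X.dim)) (H.down f γ)
  cycles : ∀ {X : 𝒱.Obj} {j : ℤ} {z : C.A X}, C.Deg j z → S.IsDeRham (2 * j) (H.cl z)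

/-- The formal properties of the rational Betti classes: they form vector spaces over `ℚ`; products
add the Tate twists, pull-backs preserve them, and push-forwards along `X ⟶ Y` (for the de Rham
orientations) map `H^m(X^an, ℚ(j))` to `H^(m + 2 c)(Y^an, ℚ(j + c))`, `c = dim Y - dim X`; the (de
Rham) classes of the cycles of codimension `j` lie in `H^(2 j)(X^an, ℚ(j))`. -/
structure PeriodData.BettiTheory (S : PeriodData H) : Prop where
  zero : ∀ {X : 𝒱.Obj} (m j : ℤ), S.IsBetti m j (0 : H.A X)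
  add : ∀ {X : 𝒱.Obj} {m j : ℤ} {γ δ : H.A X}, S.IsBetti m j γ → S.IsBetti m j δ →
    S.IsBetti m j (γ + δ)
  smul : ∀ {X : 𝒱.Obj} {m j : ℤ} (q : ℚ) {γ : H.A X}, S.IsBetti m j γ →
    S.IsBetti m j ((q : ℂ) • γ)
  mul : ∀ {X : 𝒱.Obj} {m n i j : ℤ} {γ δ : H.A X}, S.IsBetti m i γ → S.IsBetti n j δ →
    S.IsBetti (m + n) (i + j) (H.mul γ δ)
  pull : ∀ {X Y : 𝒱.Obj} (f : X ⟶ Y) {m j : ℤ} {γ : H.A Y}, S.IsBetti m j γ →
    S.IsBetti m j (H.up f γ)
  push : ∀ {X Y : 𝒱.Obj} (f : X ⟶ Y) {m j : ℤ} {γ : H.A X}, S.IsBetti m j γ →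
    S.IsBetti (m + 2 * (Y.dim - X.dim)) (j + (Y.dim - X.dim)) (H.down f γ)
  cycles : ∀ {X : 𝒱.Obj} {j : ℤ} {z : C.A X}, C.Deg j z → S.IsBetti (2 * j) j (H.cl z)

/-- The classes in `H^(2 j)_Gr(X, ℚ(j)) = H^(2 j)_dR(X / k) ∩ H^(2 j)(X^an, ℚ(j))`. -/
def PeriodData.IsGr (S : PeriodData H) {X : 𝒱.Obj} (j : ℤ) (γ : H.A X) : Prop :=
  S.IsDeRham (2 * j) γ ∧ S.IsBetti (2 * j) j γ

/-- The Grothendieck period conjecture for the algebraic cycles on `X`, `GPC^j(X)` for all `j`: every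
class in `H^(2 j)_Gr(X, ℚ(j))` is the class of an algebraic cycle with rational coefficients. -/
def PeriodConjecture (S : PeriodData H) (X : 𝒱.Obj) : Prop :=
  ∀ (j : ℤ) (γ : H.A X), S.IsGr j γ → ∃ z : C.A X, C.Deg j z ∧ H.cl z = γ

end Pool.Agent.U926.SF
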