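import Pool.Agent.U926.SF.EllDefs
import Pool.Agent.U926.SF.Galois

/-!
# The Tate conjecture: definitions
-/

universe u v

namespace Pool.Agent.U926.SF

open Pool.Agent.H914 Pool.Agent.H914.VarClass.Obj Pool.Agent.W492.BB

variable {F : Type u} [Field F] {𝒱 : VarClass (AlgebraicClosure F)}
  {C : TheoryData.{u, v, 0} 𝒱 ℚ} {p : ℕ} [Fact p.Prime] {H : WeilTheoryData.{u, v, 0} C ℚ_[p]}

/-- The formal properties of the Galois actions which are used: every variety has a model over a
finite extension of `F`, and the maps given by correspondences are equivariant for the Galois group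
of some finite extension. -/
structure IsTateTheory (A : GaloisActions F H) : Prop where
  exists_model : ∀ X : 𝒱.Obj, Nonempty (Model F X.V)
  equivariant : ∀ {X Y : 𝒱.Obj} (m : Model F X.V) (m' : Model F Y.V) {r : ℤ}
    {z : C.A (X.prod Y)}, C.Deg (X.dim + r) z →
    ∃ L : Ext F, IsFinite L ∧ m.L ≤ L ∧ m'.L ≤ L ∧ IsEquivariant A m m' r z L

/-- The class `γ ∈ H^(2 j)(X, ℚ_p)` is a Tate class for the model `m` of `X` and the extension `L` of
`F`: the Galois group of `L` acts on it by the power `-j` of the cyclotomic character (as a class in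
`H^(2 j)(X, ℚ_p(j))` it is invariant). -/
def IsTateClass (A : GaloisActions F H) {X : 𝒱.Obj} (m : Model F X.V) (L : Ext F) (j : ℤ)
    (γ : H.A X) : Prop :=
  H.Deg (2 * j) γ ∧ ∀ g ∈ gal L, A.act m g γ = A.twist j g γ

/-- The `ℚ_p`-linear combinations of the classes of the cycles of codimension `j` on `X`. -/
inductive IsCycleCombination (H : WeilTheoryData.{u, v, 0} C ℚ_[p]) {X : 𝒱.Obj} (j : ℤ) :
    H.A X → Prop
  | zero : IsCycleCombination H j 0
  | add (c : ℚ_[p]) (z : C.A X) (γ : H.A X) : C.Deg j z → IsCycleCombination H j γ →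
      IsCycleCombination H j (c • H.cl z + γ)

/-- The Tate conjecture for all models of `X` (over finite extensions of `F`): the Tate classes, also
over finite extensions `L` of the field of definition, are `ℚ_p`-linear combinations of classes of
cycles. -/
def TateConjecture (A : GaloisActions F H) (X : 𝒱.Obj) : Prop :=
  ∀ (m : Model F X.V) (L : Ext F), IsFinite L → m.L ≤ L → ∀ (j : ℤ) (γ : H.A X),
    IsTateClass A m L j γ → IsCycleCombination H j γ

end Pool.Agent.U926.SF
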