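import Pool.Agent.U926.SF.Cur2Defs

/-!
# Etale motivic cohomology in weight `dim X`: definitions
-/

universe u v

namespace Pool.Agent.U926.SF

open Pool.Agent.H914 Pool.Agent.H914.VarClass.Obj Pool.Agent.W492.BB

variable {F : Type u} [Field F] {𝒱 : VarClass (AlgebraicClosure F)}

/-- The groups `G m i = H^i(X₀_et, ℤ(d))`, `d = dim X₀`, `i ≤ 2 d` (also for negative `i`), are
finitely generated, for all models `X₀` of `X` over finite extensions of `F`. -/
def TopWeight (W : ModelGroups F 𝒱 ℤ) (X : 𝒱.Obj) : Prop :=
  ∀ (m : Model F X.V) (i : ℤ), i ≤ 2 * X.dim → Module.Finite ℤ (W.G m i)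

/-- The theorem of Soulé, Geisser, Kahn, Flach and Morin: if `X` is built from products of curves (its
Chow motive is of abelian type), then the groups `H^i(X₀_et, ℤ(d))`, `i ≤ 2 d`, of the models are
finitely generated (a power of the product of the characteristic polynomials of the Frobenius on the
cohomology below the top degree annihilates the complement of `ℤ(d)[2 d]` in the motive, and `q ^ d` is
not a root; so the higher Chow groups of zero-cycles are torsion). -/
def TopWeightTheorem (C : TheoryData.{u, v, 0} 𝒱 ℚ) (W : ModelGroups F 𝒱 ℤ) : Prop :=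
  ∀ X : 𝒱.Obj, IsBuiltFrom C IsCurveProduct X → TopWeight W X

end Pool.Agent.U926.SF
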