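import Pool.Agent.U926.SF.EllDefs
import Pool.Agent.U926.SF.Galois

/-!
# Unramified cohomology of varieties over finite fields: definitions
-/

universe u v

namespace Pool.Agent.U926.SF

open Pool.Agent.H914 Pool.Agent.H914.VarClass.Obj Pool.Agent.W492.BB

variable {F : Type u} [Field F] {𝒱 : VarClass (AlgebraicClosure F)}

variable (F 𝒱) in
/-- The unramified cohomology groups `N m = H^3_nr(X₀, ℚ/ℤ(2))` of the models `m` (the varieties `X₀`
over the finite extensions of `F`). -/
abbrev Unramified : Type (u + 1) := ∀ {X : 𝒱.Obj}, Model F X.V → Type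

/-- The group `H^3_nr(X₀, ℚ/ℤ(2))` is finite for all models `X₀` of `X` over finite extensions of
`F`. -/
def FiniteUnramified (N : Unramified F 𝒱) (X : 𝒱.Obj) : Prop := ∀ m : Model F X.V, Finite (N m)

/-- The theorem of Colliot-Thélène and Kahn on the class `B_Tate`: the group `H^3_nr(X₀, ℚ/ℤ(2))` is
finite if the Chow motive of `X` is of abelian type and `X` satisfies the Tate conjecture. Both hold if
`X` is built from products of elliptic curves (Spiess, Soulé). -/
def FiniteIfElliptic (C : TheoryData.{u, v, 0} 𝒱 ℚ) (N : Unramified F 𝒱) : Prop :=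
  ∀ X : 𝒱.Obj, IsBuiltFrom C IsEllipticProduct X → FiniteUnramified N X

end Pool.Agent.U926.SF
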