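import Pool.Agent.U926.SF.CurDefs
import Pool.Agent.U926.HC.Defs
import Pool.Agent.TH829.Prime.Defs

/-!
# Smash-nilpotence on hypersurfaces `g_0 + ⋯ + g_r = 0`: definitions
-/

universe u v w

namespace Pool.Agent.U926.SF

open Pool.Agent.H914 Pool.Agent.H914.VarClass.Obj Pool.Agent.W492.BB Pool.Agent.U926.HC
  Pool.Agent.TH829.Prime

variable {k : Type u} [Field k] {𝒱 : VarClass k} {C : TheoryData.{u, v, 0} 𝒱 ℚ}

/-- The hypersurfaces `V f` of the data `T`. -/
def hyp (T : HypersurfaceData C) : Hypersurfaces 𝒱 := ⟨T.V⟩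

variable {K : Type w} [Field K]

/-- The known facts on the nonsingular hypersurfaces of degree `d` and their hyperplane classes which
are used: see `IsEmbedded` and `HasLefschetz`. -/
structure IsProjectiveTheory (H : WeilTheoryData.{u, v, w} C K) (T : HypersurfaceData C) (d : ℕ) :
    Prop where
  emb : ∀ {σ : Type} [Finite σ] (f : MvPolynomial σ k), IsNonsingularForm d f → 3 ≤ Nat.card σ →
    IsEmbedded T d f
  lefschetz : ∀ {σ : Type} [Finite σ] (f : MvPolynomial σ k), IsNonsingularForm d f →
    3 ≤ Nat.card σ → HasLefschetz H T f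

/-- **Kimura's theorem on odd motives.** Let `X` be built from products of curves; then the Chow motive
of `X` is finite-dimensional. Let `p` be a projector such that the motive `(X, p)` has no cohomology in
even degrees. Then `(X, p)` is oddly finite-dimensional (a finite-dimensional motive without cohomology
is zero), and so all cycles on `(X, p)` are smash-nilpotent. -/
def OddKimuraTheorem (H : WeilTheoryData.{u, v, w} C K) : Prop :=
  ∀ X : 𝒱.Obj, IsBuiltFrom C IsCurveProduct X → ∀ p : C.A (X.prod X), C.Deg X.dim p →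
    C.comp p p = p → (∀ (i : ℤ) (a : H.A X), H.Deg (2 * i) a → H.act (H.cl p) a = 0) →
      ∀ (j : ℤ) (x : C.A X), C.Deg j x → C.act p x = x → SmashNilpotent C x

/-- The hypersurfaces `g_0(x^(0)) + ⋯ + g_r(x^(r)) = 0` of odd dimension (any `r`), where the `g_l` are
nonsingular forms of the same degree `d ≥ 2` in separate sets of variables, each of at most two
variables, or at most five variables if `d = 3`. -/
inductive IsOddSum (T : HypersurfaceData C) : 𝒱.Obj → Prop
  | hypersurface (d : ℕ) {r : ℕ} {σ : Fin (r + 1) → Type} (g : ∀ l, MvPolynomial (σ l) k) :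
      2 ≤ d → HasBlocks d (blockVars d) g → Odd (Nat.card (Σ l, σ l)) →
        IsOddSum T (T.V (sumForms g))

/-- The conjecture of Voevodsky for `X`: numerically trivial classes on `X` are smash-nilpotent. -/
def VoevodskyNum (C : TheoryData.{u, v, 0} 𝒱 ℚ) (X : 𝒱.Obj) : Prop :=
  ∀ (i : ℤ) (a : C.A X), C.Deg i a → NumTrivial C i a → SmashNilpotent C a

/-- The conjecture of Voevodsky for `X`, homological form: homologically trivial classes on `X` are
smash-nilpotent. -/
def VoevodskyHom (H : WeilTheoryData.{u, v, w} C K) (X : 𝒱.Obj) : Prop :=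
  ∀ (i : ℤ) (a : C.A X), C.Deg i a → H.cl a = 0 → SmashNilpotent C a

end Pool.Agent.U926.SF
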